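import Pool.Agent.Lib.MP_ed661f_ag.H.Krull
import Pool.Agent.Lib.MP_ed661f_ag.H.Degrees
import Pool.Agent.Lib.MP_ed661f_ag.H.Basis
import Pool.Agent.Lib.MP_ed661f_ag.H.HilbMul
import Pool.Agent.Lib.MP_ed661f_ag.H.Slice

/-!
The Hilbert function of a curve is `deg P * k + O(1)`; bounded jets on hypersurface sections.
-/

set_option autoImplicit false

open MvPolynomial Filter Topology Module
open scoped ENNReal

namespace Pool.Agent.Lib.MP_ed661f_ag.T

open Pool.Agent.Lib.MP_ed661f_ag.H

variable {N : ℕ}

lemma sum_le_hilb' {r d : ℕ} {I : Ideal (Poly N)} {y : Fin r → Poly N}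
    (hy : ∀ i, (y i).IsHomogeneous 1) {e : Fin d → Poly N} {a : Fin d → ℕ}
    (he : ∀ l, (e l).IsHomogeneous (a l))
    (hind : ∀ c : Fin d → MvPolynomial (Fin r) ℂ,
      (∑ l, proj I y (c l) * Ideal.Quotient.mk I (e l)) = 0 → c = 0) {k : ℕ}
    (hk : ∀ l, a l ≤ k) :
    ∑ l, Module.finrank ℂ (homogeneousSubmodule (Fin r) ℂ (k - a l)) ≤ hilb I k := by
  classical
  let Φ : (∀ l, homogeneousSubmodule (Fin r) ℂ (k - a l)) →ₗ[ℂ] Poly N ⧸ I :=
    { toFun := fun c => ∑ l, proj I y (c l).1 * Ideal.Quotient.mk I (e l)
      map_add' := fun c c' => by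
        rw [← Finset.sum_add_distrib]
        refine Finset.sum_congr rfl fun l _ => ?_
        rw [Pi.add_apply, Submodule.coe_add, map_add, add_mul]
      map_smul' := fun t c => by
        rw [RingHom.id_apply, Finset.smul_sum]
        refine Finset.sum_congr rfl fun l _ => ?_
        rw [Pi.smul_apply, Submodule.coe_smul, map_smul, smul_mul_assoc] }
  let W := (homogeneousSubmodule (Fin (N + 1)) ℂ k).map (Ideal.Quotient.mkₐ ℂ I).toLinearMap
  let g : (∀ l, homogeneousSubmodule (Fin r) ℂ (k - a l)) →ₗ[ℂ] W :=
    LinearMap.codRestrict _ Φ (by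
      intro c
      refine ⟨∑ l, aeval y (c l).1 * e l, Submodule.sum_mem _ fun l _ => ?_, ?_⟩
      · have h := (aeval_hom hy (show (c l).1.IsHomogeneous (k - a l) from (c l).2)).mul (he l)
        rw [Nat.sub_add_cancel (hk l)] at h
        exact h
      · change Ideal.Quotient.mk I (∑ l, aeval y (c l).1 * e l) =
          ∑ l, proj I y (c l).1 * Ideal.Quotient.mk I (e l)
        rw [map_sum]
        refine Finset.sum_congr rfl fun l _ => ?_
        rw [map_mul, ← proj_eq])
  have hg : Function.Injective g := by
    rw [← LinearMap.ker_eq_bot, LinearMap.ker_eq_bot']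
    intro c hc
    have h1 : (∑ l, proj I y (c l).1 * Ideal.Quotient.mk I (e l)) = 0 := congrArg Subtype.val hc
    have h2 := hind (fun l => (c l).1) h1
    ext l : 1
    exact Subtype.ext (congrFun h2 l)
  have hf : ∀ l, Module.Finite ℂ (homogeneousSubmodule (Fin r) ℂ (k - a l)) :=
    fun l => finite_forms r (k - a l)
  calc ∑ l, Module.finrank ℂ (homogeneousSubmodule (Fin r) ℂ (k - a l)) =
      Module.finrank ℂ (∀ l, homogeneousSubmodule (Fin r) ℂ (k - a l)) :=
        (Module.finrank_pi_fintype ℂ).symm
    _ ≤ Module.finrank ℂ W := by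
        have hWf : Module.Finite ℂ W := by
          have := finite_formsN (N := N) k
          exact inferInstance
        exact LinearMap.finrank_le_finrank_of_injective hg

/-- the Hilbert function of a curve -/
theorem exists_deg {P : Ideal (Poly N)} (hP : P.IsPrime) (hh : Homog P)
    (hdim : ringKrullDim (Poly N ⧸ P) = 2) :
    ∃ c c2 : ℕ, deg P = c ∧ ∀ k, hilb P k ≤ c * k + c2 := by
  obtain ⟨y, h1, h2, h3⟩ := exists_noether (J := P) hP.ne_top hh (r := 2)
    (by rw [hdim]; norm_num)
  obtain ⟨d, e, a, q, b, -, he, hind, hq, hqb, hF⟩ := exists_basis hP hh h1 h2 h3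
  have hup : ∀ k, hilb P k ≤ d * (k + b + 1) := by
    intro k
    have h4 := hilb_le hP hh (by norm_num) h1 h2 he hq hqb hF k
    rwa [Finset.sum_const, Finset.card_univ, Fintype.card_fin, smul_eq_mul,
      finrank_forms_two] at h4
  refine ⟨d, d * (b + 1), ?_, fun k => ?_⟩
  · apply le_antisymm
    · have h5 : Tendsto (fun k : ℕ => (d : ℝ) * (((k : ℝ) + (b + 1)) / (k : ℝ)))
        atTop (𝓝 ((d : ℝ) * 1)) := tendsto_const_nhds.mul (tendsto_add_div _)
      have h6 := liminf_le_ofReal (u := fun k : ℕ => (hilb P k : ℝ≥0∞) / k) ?_ h5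
      · rw [mul_one, ENNReal.ofReal_natCast] at h6
        exact h6
      · filter_upwards [eventually_ge_atTop 1] with k hk
        rw [cast_div_eq hk]
        apply ENNReal.ofReal_le_ofReal
        rw [← mul_div_assoc]
        apply div_le_div_of_nonneg_right _ (Nat.cast_nonneg k)
        have h5 : (hilb P k : ℝ) ≤ ((d * (k + b + 1) : ℕ) : ℝ) := by exact_mod_cast hup k
        refine h5.trans (le_of_eq ?_)
        push_cast; ring
    · set A : ℕ := Finset.univ.sup a with hA
      have hAl : ∀ l, a l ≤ A := fun l => Finset.le_sup (Finset.mem_univ l)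
      have hlow : ∀ k, A ≤ k → d * (k - A + 1) ≤ hilb P k := by
        intro k hk
        refine le_trans ?_ (sum_le_hilb' h1 he hind (k := k) fun l => (hAl l).trans hk)
        calc d * (k - A + 1) = ∑ _l : Fin d, (k - A + 1) := by
              rw [Finset.sum_const, Finset.card_univ, Fintype.card_fin, smul_eq_mul]
          _ ≤ ∑ l : Fin d, Module.finrank ℂ (homogeneousSubmodule (Fin 2) ℂ (k - a l)) := by
              refine Finset.sum_le_sum fun l _ => ?_
              rw [finrank_forms_two]
              have := hAl l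
              omega
      have h5 : Tendsto (fun k : ℕ => (d : ℝ) * (((k : ℝ) + (1 - A)) / (k : ℝ)))
        atTop (𝓝 ((d : ℝ) * 1)) := tendsto_const_nhds.mul (tendsto_add_div _)
      have h6 := ofReal_le_liminf (u := fun k : ℕ => (hilb P k : ℝ≥0∞) / k) ?_ h5
      · rw [mul_one, ENNReal.ofReal_natCast] at h6
        exact h6
      · filter_upwards [eventually_ge_atTop 1, eventually_ge_atTop A] with k hk hkA
        rw [cast_div_eq hk]
        apply ENNReal.ofReal_le_ofReal
        rw [← mul_div_assoc]
        apply div_le_div_of_nonneg_right _ (Nat.cast_nonneg k)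
        have h5 : ((d * (k - A + 1) : ℕ) : ℝ) ≤ (hilb P k : ℝ) := by exact_mod_cast hlow k hkA
        refine (le_of_eq ?_).trans h5
        push_cast [Nat.cast_sub hkA]; ring
  · refine (hup k).trans (le_of_eq ?_)
    ring

/-- every polynomial is congruent to a form of degree `m` modulo `𝔪 ^ (m + 1)` and `l - 1` -/
theorem exists_form_congr {l : Poly N} (hl : l.IsHomogeneous 1) {v : Fin (N + 1) → ℂ}
    (hlv : MvPolynomial.eval v l = 1) (m : ℕ) (f : Poly N) :
    ∃ g : Poly N, g.IsHomogeneous m ∧
      f - g ∈ vecIdeal v ^ (m + 1) ⊔ Ideal.span {l - 1} := by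
  -- one form of degree `j`
  have key : ∀ (j : ℕ) (h : Poly N), h.IsHomogeneous j →
      ∃ g : Poly N, g.IsHomogeneous m ∧ h - g ∈ vecIdeal v ^ (m + 1) ⊔ Ideal.span {l - 1} := by
    intro j
    induction j using Nat.strong_induction_on with
    | _ j ih =>
      intro h hh
      rcases le_or_gt j m with hjm | hjm
      · refine ⟨l ^ (m - j) * h, ?_, ?_⟩
        · have := (hl.pow (m - j)).mul hh
          rwa [one_mul, Nat.sub_add_cancel hjm] at this
        · apply Ideal.mem_sup_right
          have h1 : l - 1 ∣ l ^ (m - j) - 1 := by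
            have := sub_dvd_pow_sub_pow l 1 (m - j)
            rwa [one_pow] at this
          rw [Ideal.mem_span_singleton]
          have e : h - l ^ (m - j) * h = (l ^ (m - j) - 1) * (-h) := by ring
          rw [e]
          exact h1.mul_right _
      · -- replace `h` by a form of degree `j - 1`
        let y : Fin (N + 1) → Poly N := fun i => X i - C (v i) * l
        have hy : ∀ i, (y i).IsHomogeneous 1 := fun i => by
          have h1 : (C (v i) * l : Poly N).IsHomogeneous 1 := by
            have := (isHomogeneous_C (Fin (N + 1)) (v i)).mul hl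
            rwa [zero_add] at this
          exact (isHomogeneous_X ℂ i).sub h1
        have hyv : ∀ i, y i ∈ vecIdeal v := fun i => by
          rw [vecIdeal, RingHom.mem_ker]
          simp [y, hlv]
        have h2 : (aeval y h : Poly N) ∈ vecIdeal v ^ j := by
          rw [aeval_def, eval₂_eq]
          refine Ideal.sum_mem _ fun e he => Ideal.mul_mem_left _ _ ?_
          have hdeg : e.degree = j := by
            have := hh (mem_support_iff.1 he)
            rwa [Finsupp.degree_eq_weight_one]
          rw [← hdeg, Finsupp.degree_apply, ← Finset.prod_pow_eq_pow_sum]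
          exact Ideal.prod_mem_prod fun i _ => Ideal.pow_mem_pow (hyv i) _
        have h3 : (l : Poly N) ∣ h - aeval y h := by
          have h4 : Ideal.Quotient.mk (Ideal.span {l}) h =
              Ideal.Quotient.mk (Ideal.span {l}) (aeval y h) := by
            have h5 : (Ideal.Quotient.mkₐ ℂ (Ideal.span {l})) =
                (Ideal.Quotient.mkₐ ℂ (Ideal.span {l})).comp (aeval y) := by
              apply MvPolynomial.algHom_ext
              intro i
              rw [AlgHom.comp_apply, aeval_X]
              show Ideal.Quotient.mk (Ideal.span {l}) (X i) =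
                Ideal.Quotient.mk (Ideal.span {l}) (y i)
              rw [Ideal.Quotient.eq]
              have e : (X i : Poly N) - y i = C (v i) * l := by simp [y]
              rw [e]
              exact Ideal.mul_mem_left _ _ (Ideal.mem_span_singleton_self l)
            exact congrArg (fun (φ : Poly N →ₐ[ℂ] Poly N ⧸ Ideal.span {l}) => φ h) h5
          rw [Ideal.Quotient.eq, Ideal.mem_span_singleton] at h4
          exact h4
        obtain ⟨g, hg⟩ := h3
        have hg' : h - aeval y h = l * homogeneousComponent (j - 1) g := by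
          have h5 : (h - aeval y h : Poly N).IsHomogeneous j := hh.sub (aeval_hom hy hh)
          have h6 := hc_mul g l hl j
          rw [mul_comm g l, ← hg, if_pos (by omega), homogeneousComponent_of_mem h5,
            if_pos rfl] at h6
          rw [h6, mul_comm]
        obtain ⟨g', hg1, hg2⟩ := ih (j - 1) (by omega) (homogeneousComponent (j - 1) g)
          (homogeneousComponent_isHomogeneous _ _)
        refine ⟨g', hg1, ?_⟩
        have e : h - g' = aeval y h + ((l - 1) * homogeneousComponent (j - 1) g) +
            (homogeneousComponent (j - 1) g - g') := by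
          have : h = aeval y h + l * homogeneousComponent (j - 1) g := by rw [← hg']; ring
          linear_combination this
        rw [e]
        refine Ideal.add_mem _ (Ideal.add_mem _ ?_ ?_) hg2
        · exact Ideal.mem_sup_left (Ideal.pow_le_pow_right (by omega) h2)
        · exact Ideal.mem_sup_right (Ideal.mul_mem_right _ _ (Ideal.mem_span_singleton_self _))
  choose g hg1 hg2 using fun j => key j _ (homogeneousComponent_isHomogeneous j f)
  refine ⟨∑ j ∈ Finset.range (f.totalDegree + 1), g j, ?_, ?_⟩
  · exact Submodule.sum_mem (homogeneousSubmodule (Fin (N + 1)) ℂ m) fun j _ => hg1 j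
  · have e : f - ∑ j ∈ Finset.range (f.totalDegree + 1), g j =
        ∑ j ∈ Finset.range (f.totalDegree + 1), (homogeneousComponent j f - g j) := by
      rw [Finset.sum_sub_distrib, sum_homogeneousComponent]
    rw [e]
    exact Ideal.sum_mem _ fun j _ => hg2 j

/-- jets are bounded by the Hilbert function -/
theorem lam_le_hilb {J : Ideal (Poly N)} {l : Poly N} (hl : l.IsHomogeneous 1)
    {v : Fin (N + 1) → ℂ} (hlv : MvPolynomial.eval v l = 1) {t m : ℕ} (htm : t ≤ m + 1) :
    lam J l v t ≤ hilb J m := by
  set J' : Ideal (Poly N) := J ⊔ vecIdeal v ^ t ⊔ Ideal.span {l - 1} with hJ'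
  have hle : J ≤ J' := le_sup_left.trans le_sup_left
  set W := (homogeneousSubmodule (Fin (N + 1)) ℂ m).map (Ideal.Quotient.mkₐ ℂ J).toLinearMap
    with hW
  have hf : Module.Finite ℂ W := by
    have := finite_formsN (N := N) m
    rw [hW]
    exact inferInstance
  let φ : W →ₗ[ℂ] (Poly N ⧸ J') := (Ideal.Quotient.factorₐ ℂ hle).toLinearMap.domRestrict W
  have hφ : Function.Surjective φ := by
    intro x
    obtain ⟨f, rfl⟩ := Ideal.Quotient.mk_surjective x
    obtain ⟨g, hg1, hg2⟩ := exists_form_congr hl hlv m f
    refine ⟨⟨Ideal.Quotient.mk J g, g, hg1, rfl⟩, ?_⟩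
    show Ideal.Quotient.mk J' g = Ideal.Quotient.mk J' f
    rw [Ideal.Quotient.eq]
    have h1 : vecIdeal v ^ (m + 1) ⊔ Ideal.span {l - 1} ≤ J' :=
      sup_le ((Ideal.pow_le_pow_right htm).trans (le_sup_right.trans le_sup_left)) le_sup_right
    have e : g - f = -(f - g) := by ring
    rw [e]
    exact J'.neg_mem (h1 hg2)
  exact LinearMap.finrank_le_finrank_of_surjective hφ

/-- the jets of a section of a curve are bounded -/
theorem exists_bound {P : Ideal (Poly N)} (hP : P.IsPrime) {c c2 : ℕ}
    (hc : ∀ k, hilb P k ≤ c * k + c2) {A : Poly N} {a : ℕ} (hA : A.IsHomogeneous a)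
    (hAP : A ∉ P) {l : Poly N} (hl : l.IsHomogeneous 1) {v : Fin (N + 1) → ℂ}
    (hlv : MvPolynomial.eval v l = 1) (t : ℕ) :
    lam (P ⊔ Ideal.span {A}) l v t ≤ c * a := by
  by_contra hcon
  push Not at hcon
  have h1 : ∀ m, t ≤ m + 1 → c * a + 1 ≤ hilb (P ⊔ Ideal.span {A}) m := fun m hm =>
    le_trans hcon (lam_le_hilb hl hlv hm)
  have h2 : ∀ k : ℕ, k * (c * a + 1) ≤ hilb P (t + k * a) := by
    intro k
    induction k with
    | zero => simp
    | succ k ih =>
      have h3 := hilb_mul_le hP hA hAP (t + k * a)
      have h4 := h1 (t + k * a + a) (by omega)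
      have e : t + (k + 1) * a = t + k * a + a := by ring
      rw [e]
      have e2 : (k + 1) * (c * a + 1) = k * (c * a + 1) + (c * a + 1) := by ring
      omega
  have h3 := (h2 (c * t + c2 + 1)).trans (hc _)
  have e : c * (t + (c * t + c2 + 1) * a) + c2 = (c * t + c2 + 1) * (c * a) + (c * t + c2) := by
    ring
  rw [e, mul_add, mul_one] at h3
  omega

end Pool.Agent.Lib.MP_ed661f_ag.T
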