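import Pool.Agent.Lib.MP_ed661f_ag.T.Proj

/-!
The forms `A` and `b`.
-/

set_option autoImplicit false

open MvPolynomial

namespace Pool.Agent.Lib.MP_ed661f_ag.T

open Pool.Agent.Lib.MP_ed661f_ag.H

/-- the inclusion of `ℂ[x₀,x₁,x₂]` preserves forms -/
theorem inc_homogeneous {b : D3} {k : ℕ} (hb : b.IsHomogeneous k) : (inc b).IsHomogeneous k :=
  hb.rename_isHomogeneous

theorem homogeneousComponent_inc (b : D3) (k : ℕ) :
    homogeneousComponent k (inc b) = inc (homogeneousComponent k b) := by
  have h : inc b = ∑ j ∈ Finset.range (b.totalDegree + 1), inc (homogeneousComponent j b) := by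
    rw [← map_sum, sum_homogeneousComponent]
  rw [h, map_sum]
  have h1 : ∀ j, homogeneousComponent k (inc (homogeneousComponent j b)) =
      if k = j then inc (homogeneousComponent j b) else 0 := fun j =>
    homogeneousComponent_of_mem (inc_homogeneous (homogeneousComponent_isHomogeneous j b))
  simp only [h1]
  by_cases hk : k ∈ Finset.range (b.totalDegree + 1)
  · rw [Finset.sum_ite_eq, if_pos hk]
  · rw [Finset.sum_ite_eq, if_neg hk, homogeneousComponent_eq_zero k b
      (by rw [Finset.mem_range] at hk; omega), map_zero]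

theorem finite_of_surj {A B E : Type*} [CommRing A] [CommRing B] [CommRing E] [Algebra A B]
    (ψ : B →+* E) (hψ : Function.Surjective ψ) (hfin : Module.Finite A B) (φ : A →+* E)
    (h : ∀ a, φ a = ψ (algebraMap A B a)) : φ.Finite := by
  have h1 : φ = ψ.comp (algebraMap A B) := RingHom.ext h
  rw [h1]
  exact (RingHom.Finite.of_surjective ψ hψ).comp (RingHom.finite_algebraMap.2 hfin)

/-- the surface is finite over the plane -/
theorem finite_inc {F : Poly 3} {d : ℕ} (hF : F.IsHomogeneous d)
    (hm : coeff (Finsupp.single (Fin.last 3) d) F ≠ 0) {P : Ideal (Poly 3)} (hFP : F ∈ P) :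
    ((Ideal.Quotient.mk P).comp (inc : D3 →+* Poly 3)).Finite := by
  set c := coeff (Finsupp.single (Fin.last 3) d) F with hc
  let g : Polynomial D3 := Polynomial.C (C c⁻¹) * eqv F
  have hgd : (eqv F).natDegree = d := by
    apply le_antisymm ((natDegree_eqv_le F).trans hF.totalDegree_le)
    apply Polynomial.le_natDegree_of_ne_zero
    rw [coeff_eqv hF]
    intro h0
    exact hm ((C_eq_zero).1 h0)
  have hg : g.Monic := by
    have h1 : (eqv F).leadingCoeff = C c := by
      rw [Polynomial.leadingCoeff, hgd, coeff_eqv hF]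
    apply Polynomial.monic_C_mul_of_mul_leadingCoeff_eq_one
    rw [h1, ← C_mul, inv_mul_cancel₀ hm, C_1]
  have hfin := hg.finite_quotient
  -- `D → D[X] / g → S / P`
  have hle : ∀ x ∈ Ideal.span {g}, ((Ideal.Quotient.mk P).comp
      (eqv.symm : Polynomial D3 →+* Poly 3)) x = 0 := by
    intro x hx
    obtain ⟨y, rfl⟩ := Ideal.mem_span_singleton'.1 hx
    rw [RingHom.comp_apply, Ideal.Quotient.eq_zero_iff_mem]
    show eqv.symm (y * g) ∈ P
    rw [map_mul, map_mul, AlgEquiv.symm_apply_apply]
    exact P.mul_mem_left _ (P.mul_mem_left _ hFP)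
  let ψ : Polynomial D3 ⧸ Ideal.span {g} →+* Poly 3 ⧸ P := Ideal.Quotient.lift _ _ hle
  have hψ : Function.Surjective ψ := by
    apply Ideal.Quotient.lift_surjective_of_surjective
    exact Ideal.Quotient.mk_surjective.comp eqv.symm.surjective
  refine finite_of_surj ψ hψ hfin _ fun b => ?_
  have e1 : ψ (Ideal.Quotient.mk (Ideal.span {g}) (Polynomial.C b)) =
      Ideal.Quotient.mk P (eqv.symm (Polynomial.C b)) := rfl
  rw [RingHom.comp_apply]
  refine Eq.trans ?_ (Eq.trans e1.symm ?_)
  · rw [← eqv_inc, AlgEquiv.symm_apply_apply]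
    rfl
  · exact congrArg ψ (Ideal.Quotient.mk_algebraMap (R₁ := D3) (Ideal.span {g}) b)

/-- the contraction to the plane is principal -/
theorem exists_b {F : Poly 3} {d : ℕ} (hF : F.IsHomogeneous d)
    (hm : coeff (Finsupp.single (Fin.last 3) d) F ≠ 0) {P : Ideal (Poly 3)} (hP : P.IsPrime)
    (hh : Homog P) (hdim : ringKrullDim (Poly 3 ⧸ P) = 2) (hFP : F ∈ P) :
    ∃ (b : D3) (e : ℕ), b.IsHomogeneous e ∧ b ≠ 0 ∧ (Ideal.span {b}).IsPrime ∧
      ∀ c : D3, inc c ∈ P ↔ c ∈ Ideal.span {b} := by
  set q : Ideal D3 := P.comap (inc : D3 →+* Poly 3) with hq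
  have hqm : ∀ c : D3, c ∈ q ↔ inc c ∈ P := fun c => Iff.rfl
  have hqp : q.IsPrime := Ideal.comap_isPrime _ _
  -- the dimension
  have hdq : ringKrullDim (D3 ⧸ q) = 2 := by
    rw [← hdim]
    let f : D3 ⧸ q →+* Poly 3 ⧸ P := Ideal.quotientMap P (inc : D3 →+* Poly 3) le_rfl
    apply ringKrullDim_eq_of_finite f (Ideal.quotientMap_injective' le_rfl)
    have h1 : f.comp (Ideal.Quotient.mk q) =
        (Ideal.Quotient.mk P).comp (inc : D3 →+* Poly 3) := by
      apply RingHom.ext
      intro x
      rfl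
    have h2 := finite_inc hF hm hFP
    rw [← h1] at h2
    exact RingHom.Finite.of_comp_finite h2
  have hd3 : ringKrullDim D3 = 3 := by
    have := ringKrullDim_mvPolynomial 3
    exact_mod_cast this
  have hq0 : q ≠ ⊥ := by
    intro h0
    have h1 : ringKrullDim (D3 ⧸ q) = ringKrullDim D3 := by
      rw [h0]
      exact ringKrullDim_eq_of_ringEquiv (RingEquiv.quotientBot D3)
    rw [hdq, hd3] at h1
    exact absurd h1 (by decide)
  obtain ⟨b, hbq, hb⟩ := hqp.exists_mem_prime_of_ne_bot hq0
  have hbp : (Ideal.span {b}).IsPrime := (Ideal.span_singleton_prime hb.ne_zero).2 hb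
  have hqb : q = Ideal.span {b} := by
    apply le_antisymm _ ((Ideal.span_singleton_le_iff_mem _).2 hbq)
    intro r hr
    by_contra hrb
    have hdom : IsDomain (D3 ⧸ Ideal.span {b}) := Ideal.Quotient.isDomain _
    have h1 : ringKrullDim (D3 ⧸ Ideal.span {b}) + 1 ≤ ringKrullDim D3 :=
      ringKrullDim_quotient_succ_le_of_nonZeroDivisor (mem_nonZeroDivisors_of_ne_zero hb.ne_zero)
    set r' : D3 ⧸ Ideal.span {b} := Ideal.Quotient.mk _ r with hr'
    have hr0 : r' ≠ 0 := by
      rw [hr', Ne, Ideal.Quotient.eq_zero_iff_mem]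
      exact hrb
    have h2 : ringKrullDim ((D3 ⧸ Ideal.span {b}) ⧸ Ideal.span {r'}) + 1 ≤
        ringKrullDim (D3 ⧸ Ideal.span {b}) :=
      ringKrullDim_quotient_succ_le_of_nonZeroDivisor (mem_nonZeroDivisors_of_ne_zero hr0)
    have h3 : ringKrullDim (D3 ⧸ q) ≤ ringKrullDim ((D3 ⧸ Ideal.span {b}) ⧸ Ideal.span {r'}) := by
      let g : (D3 ⧸ Ideal.span {b}) →+* D3 ⧸ q :=
        Ideal.Quotient.factor ((Ideal.span_singleton_le_iff_mem _).2 hbq)
      have hg : ∀ x ∈ Ideal.span {r'}, g x = 0 := by
        intro x hx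
        obtain ⟨y, rfl⟩ := Ideal.mem_span_singleton'.1 hx
        have e1 : g r' = 0 := by
          show Ideal.Quotient.mk q r = 0
          exact Ideal.Quotient.eq_zero_iff_mem.2 hr
        rw [map_mul, e1, mul_zero]
      apply ringKrullDim_le_of_surjective (Ideal.Quotient.lift _ g hg)
      apply Ideal.Quotient.lift_surjective_of_surjective
      exact Ideal.Quotient.factor_surjective _
    rw [hdq] at h3
    rw [hd3] at h1
    have h4 : (2 : WithBot ℕ∞) + 1 + 1 ≤ 3 :=
      le_trans (add_le_add_left (le_trans (add_le_add_left h3 1) h2) 1) h1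
    exact absurd h4 (by decide)
  -- `b` is homogeneous
  have hbt : b.IsHomogeneous b.totalDegree := by
    have h1 : ∀ j, homogeneousComponent j b ≠ 0 → j = b.totalDegree := by
      intro j hj
      have h2 : homogeneousComponent j b ∈ q := by
        rw [hqm, ← homogeneousComponent_inc]
        exact hh _ hbq j
      rw [hqb] at h2
      obtain ⟨g, hg⟩ := Ideal.mem_span_singleton'.1 h2
      have hg0 : g ≠ 0 := by
        rintro rfl
        rw [zero_mul] at hg
        exact hj hg.symm
      have h3 : (homogeneousComponent j b).totalDegree = g.totalDegree + b.totalDegree := by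
        rw [← hg, totalDegree_mul_of_isDomain hg0 hb.ne_zero]
      rw [(homogeneousComponent_isHomogeneous j b).totalDegree hj] at h3
      by_contra hne
      have h4 : b.totalDegree < j := by omega
      exact hj (homogeneousComponent_eq_zero j b h4)
    have h2 : b = homogeneousComponent b.totalDegree b := by
      conv_lhs => rw [← sum_homogeneousComponent b]
      rw [Finset.sum_eq_single b.totalDegree]
      · intro j _ hj
        by_contra hne
        exact hj (h1 j hne)
      · intro hj
        exact absurd (Finset.mem_range.2 (Nat.lt_succ_self _)) hj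
    conv_lhs => rw [h2]
    exact homogeneousComponent_isHomogeneous _ _
  exact ⟨b, b.totalDegree, hbt, hb.ne_zero, hbp, fun c => by rw [← hqm, hqb]⟩

/-- **the forms `A` and `b`** -/
theorem exists_loc {F : Poly 3} {d : ℕ} (hF : F.IsHomogeneous d)
    (hm : coeff (Finsupp.single (Fin.last 3) d) F ≠ 0) (hFp : (Ideal.span {F}).IsPrime)
    {P : Ideal (Poly 3)} (hP : P.IsPrime)
    (hh : Homog P) (hdim : ringKrullDim (Poly 3 ⧸ P) = 2) (hFP : F ∈ P)
    (hF3 : pderiv (Fin.last 3) F ∉ P) :
    ∃ (b0 : D3) (A : Poly 3) (e a : ℕ), b0 ≠ 0 ∧ b0.IsHomogeneous e ∧ A.IsHomogeneous a ∧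
      Loc (Ideal.span {F}) P A (inc b0) := by
  obtain ⟨b, e, hbh, hb0, hbp, hPb⟩ := exists_b hF hm hP hh hdim hFP
  -- transport to `D[X]`
  set P' : Ideal (Polynomial D3) := P.comap (eqv.symm : Polynomial D3 →+* Poly 3) with hP'
  have hP'm : ∀ x, x ∈ P' ↔ eqv.symm x ∈ P := fun x => Iff.rfl
  have hP'p : P'.IsPrime := Ideal.comap_isPrime _ _
  have hfg : P'.FG := IsNoetherian.noetherian P'
  have h1 : ∀ c : D3, Polynomial.C c ∈ P' ↔ c ∈ Ideal.span {b} := by
    intro c
    rw [hP'm, ← eqv_inc, AlgEquiv.symm_apply_apply, hPb]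
  obtain ⟨A', hA'P, hA'⟩ := exists_A hP'p hfg hbp h1 (F := eqv F)
    (by rw [hP'm, AlgEquiv.symm_apply_apply]; exact hFP)
    (by rw [hP'm, ← eqv_pderiv, AlgEquiv.symm_apply_apply]; exact hF3)
  set A0 : Poly 3 := eqv.symm A' with hA0
  have hA0P : A0 ∉ P := hA'P
  have hA0m : ∀ x ∈ P, ∃ y, A0 * x - inc b * y ∈ Ideal.span {F} := by
    intro x hx
    obtain ⟨y, hy⟩ := hA' (eqv x) (by rw [hP'm, AlgEquiv.symm_apply_apply]; exact hx)
    refine ⟨eqv.symm y, ?_⟩
    rw [Ideal.mem_span_singleton] at hy ⊢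
    obtain ⟨z, hz⟩ := hy
    refine ⟨eqv.symm z, ?_⟩
    apply eqv.injective
    rw [map_sub, map_mul, map_mul, map_mul, eqv_inc, hA0]
    simp only [AlgEquiv.apply_symm_apply]
    exact hz
  -- a homogeneous component of `A0`
  obtain ⟨a, ha⟩ : ∃ a, homogeneousComponent a A0 ∉ P := by
    by_contra hcon
    push Not at hcon
    apply hA0P
    rw [← sum_homogeneousComponent A0]
    exact Ideal.sum_mem _ fun j _ => hcon j
  have hFh := homog_span hF
  have hbi : (inc b).IsHomogeneous e := inc_homogeneous hbh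
  -- for homogeneous elements
  have hform : ∀ (k : ℕ) (x : Poly 3), x.IsHomogeneous k → x ∈ P →
      ∃ y, homogeneousComponent a A0 * x - inc b * y ∈ Ideal.span {F} := by
    intro k x hxk hx
    obtain ⟨y, hy⟩ := hA0m x hx
    have h2 := hFh _ hy (a + k)
    rw [map_sub, hc_mul A0 x hxk, if_pos (Nat.le_add_left k a), Nat.add_sub_cancel,
      mul_comm (inc b) y, hc_mul y (inc b) hbi] at h2
    split_ifs at h2
    · exact ⟨homogeneousComponent (a + k - e) y, by rw [mul_comm (inc b)]; exact h2⟩
    · exact ⟨0, by rw [mul_zero]; exact h2⟩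
  refine ⟨b, homogeneousComponent a A0, e, a, hb0, hbh,
    homogeneousComponent_isHomogeneous _ _, ?_⟩
  refine ⟨hFp, hP, (Ideal.span_singleton_le_iff_mem _).2 hFP, (hPb b).2
    (Ideal.mem_span_singleton_self b), ?_, ha, ?_⟩
  · -- `F` does not divide `b`
    intro hbF
    obtain ⟨g, hg⟩ := Ideal.mem_span_singleton'.1 hbF
    have hg0 : g ≠ 0 := by
      rintro rfl
      rw [zero_mul] at hg
      have h2 := eqv_inc b
      rw [← hg, map_zero] at h2
      exact hb0 (Polynomial.C_eq_zero.1 h2.symm)
    have hF0 : F ≠ 0 := by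
      rintro rfl
      exact hm (coeff_zero _)
    have hgd : (eqv F).natDegree = d := by
      apply le_antisymm ((natDegree_eqv_le F).trans hF.totalDegree_le)
      apply Polynomial.le_natDegree_of_ne_zero
      rw [coeff_eqv hF]
      intro h0
      exact hm ((C_eq_zero).1 h0)
    have h2 : (eqv g).natDegree + (eqv F).natDegree = 0 := by
      rw [← Polynomial.natDegree_mul ((map_ne_zero_iff _ eqv.injective).2 hg0)
        ((map_ne_zero_iff _ eqv.injective).2 hF0), ← map_mul, hg, eqv_inc,
        Polynomial.natDegree_C]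
    have hd0 : d = 0 := by omega
    -- then `F` is a constant
    subst hd0
    have h3 : F = C (coeff 0 F) := by
      apply totalDegree_eq_zero_iff_eq_C.1
      exact Nat.le_zero.1 hF.totalDegree_le
    have h4 : IsUnit F := by
      rw [h3]
      have h5 : coeff 0 F ≠ 0 := by
        intro h6
        rw [h6, C_0] at h3
        exact hF0 h3
      exact (isUnit_iff_ne_zero.2 h5).map C
    exact hFp.ne_top (Ideal.span_singleton_eq_top.2 h4)
  · intro x hx
    choose y hy using fun j => hform j (homogeneousComponent j x)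
      (homogeneousComponent_isHomogeneous j x) (hh x hx j)
    refine ⟨∑ j ∈ Finset.range (x.totalDegree + 1), y j, ?_⟩
    have e1 : homogeneousComponent a A0 * x -
        inc b * ∑ j ∈ Finset.range (x.totalDegree + 1), y j =
        ∑ j ∈ Finset.range (x.totalDegree + 1),
          (homogeneousComponent a A0 * homogeneousComponent j x - inc b * y j) := by
      rw [Finset.sum_sub_distrib, ← Finset.mul_sum, ← Finset.mul_sum,
        sum_homogeneousComponent]
    rw [e1]
    exact Ideal.sum_mem _ fun j _ => hy j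

end Pool.Agent.Lib.MP_ed661f_ag.T
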