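import Pool.Agent.Lib.MP_ed661f_ag.T.Global
import Pool.Agent.Lib.MP_ed661f_ag.T.CurveDeg
import Pool.Agent.Lib.MP_ed661f_ag.T.ExistsLoc
import Pool.Agent.Lib.MP_ed661f_ag.S.Chart
import Pool.Agent.Lib.MP_ed661f_ag.S.Up.Count
import Pool.Agent.Lib.MP_ed661f_ag.S.Up.Lim
import Pool.Agent.Lib.MP_ed661f_ag.H.Limit

/-!
An inequality for forms at smooth points of the surface `F = 0` in `ℙ³` implies the inequality for
all curves on the surface.
-/

set_option autoImplicit false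

open MvPolynomial Module
open scoped ENNReal

namespace Pool.Agent.Lib.MP_ed661f_ag.T

open Pool.Agent.Lib.MP_ed661f_ag.H

/-- the multiplicity at a point which is not on the curve -/
theorem mult_eq_zero_of_not {N : ℕ} {P : Ideal (Poly N)} {G l : Poly N} (hG : G ∈ P)
    {v : Fin (N + 1) → ℂ} (hlv : MvPolynomial.eval v l = 1) (hv : MvPolynomial.eval v G ≠ 0) :
    mult P v = 0 := by
  refine mult_eq_zero_of_bounded (l := l) hlv ⟨0, fun t => ?_⟩
  have h1 : Ideal.span {G} ⊔ vecIdeal v = ⊤ := by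
    rw [Ideal.eq_top_iff_one]
    have h2 : (1 : Poly N) = C (MvPolynomial.eval v G)⁻¹ * G +
        (1 - C (MvPolynomial.eval v G)⁻¹ * G) := by ring
    rw [h2]
    refine Submodule.add_mem_sup (Ideal.mul_mem_left _ _ (Ideal.mem_span_singleton_self G)) ?_
    rw [vecIdeal, RingHom.mem_ker]
    simp [hv]
  have h2 : Ideal.span {G} ⊔ vecIdeal v ^ t = ⊤ := by
    rw [← Ideal.isCoprime_iff_sup_eq] at h1 ⊢
    exact h1.pow_right
  have h3 : P ⊔ vecIdeal v ^ t ⊔ Ideal.span {l - 1} = ⊤ := by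
    rw [eq_top_iff, ← h2]
    exact (sup_le_sup_right ((Ideal.span_singleton_le_iff_mem _).2 hG) _).trans le_sup_left
  unfold lam
  rw [h3]
  have : Subsingleton (Poly N ⧸ (⊤ : Ideal (Poly N))) := Ideal.Quotient.subsingleton_iff.2 rfl
  rw [finrank_zero_of_subsingleton]

/-- lower bound for the Hilbert function of the surface -/
theorem hilb_surface {F : Poly 3} (hF0 : F ≠ 0) {d : ℕ} (hF : F.IsHomogeneous d) (m : ℕ) :
    d * m ^ 2 ≤ 2 * hilb (Ideal.span {F}) m + 2 * d ^ 2 * m := by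
  rcases le_or_gt d m with h | h
  swap
  · have h1 : d * m ^ 2 ≤ d ^ 2 * m := by
      have : m * m ≤ d * m := Nat.mul_le_mul_right m h.le
      nlinarith
    nlinarith
  obtain ⟨j, rfl⟩ := Nat.exists_eq_add_of_le' h
  have h1 := S.Up.hilb_span hF0 hF j
  have h2 := S.Up.finrank_forms_four j
  have h3 := S.Up.finrank_forms_four (j + d)
  have h4 : 6 * hilb (Ideal.span {F}) (j + d) + (j + 1) * (j + 2) * (j + 3) =
      (j + d + 1) * (j + d + 2) * (j + d + 3) := by
    rw [← h2, ← h3, ← h1]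
    ring
  have h5 : 3 * (d * (j + d) ^ 2) + (j + 1) * (j + 2) * (j + 3) ≤
      (j + d + 1) * (j + d + 2) * (j + d + 3) + 6 * d ^ 2 * (j + d) := by
    zify
    nlinarith [mul_nonneg (show (0 : ℤ) ≤ d by positivity) (show (0 : ℤ) ≤ j by positivity),
      mul_nonneg (mul_nonneg (show (0 : ℤ) ≤ d by positivity) (show (0 : ℤ) ≤ d by positivity))
        (show (0 : ℤ) ≤ j by positivity),
      mul_nonneg (mul_nonneg (show (0 : ℤ) ≤ d by positivity) (show (0 : ℤ) ≤ d by positivity))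
        (show (0 : ℤ) ≤ d by positivity)]
  nlinarith

/-- the arithmetic of the count: `k m (s - c) ≤ C (m + k ^ 2)` for all `k`, `m` implies
`s ≤ c` -/
theorem le_of_count {s c C : ℝ} (h : ∀ k m : ℕ, 1 ≤ k → 1 ≤ m →
    k * m * (s - c) ≤ C * (m + k ^ 2)) : s ≤ c := by
  by_contra hcon
  push Not at hcon
  have hδ : 0 < s - c := by linarith
  have hC : 0 < C := by
    have := h 1 1 le_rfl le_rfl
    push_cast at this
    by_contra h0
    push Not at h0
    nlinarith
  obtain ⟨k, hk⟩ := exists_nat_gt (2 * C / (s - c))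
  have hk0 : (0 : ℝ) < k := lt_trans (by positivity) hk
  have hk1 : 1 ≤ k := by
    rcases Nat.eq_zero_or_pos k with h0 | h0
    · subst h0; simp at hk0
    · exact h0
  have hk2 : 2 * C < k * (s - c) := by rwa [div_lt_iff₀ hδ] at hk
  have h1 := h k (k ^ 2 + 1) hk1 (by omega)
  push_cast at h1
  nlinarith [sq_nonneg (k : ℝ)]

variable {d n : ℕ} {F : Poly 3}

/-- **forms and curves.** Let `F = 0` be an irreducible surface of degree `d` in `ℙ³`, `v i` points
of the affine piece `x₀ = 1` with `∂F/∂x₃ ≠ 0`, and `ρ i ≥ 0` weights with `∑ (ρ i)² = d`. If no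
form `G` of degree `m` outside `(F)` vanishes at all `v i` to orders bigger than `ρ i * m`, then
`∑ ρ i mult_{v i} C ≤ deg C` for all curves `C` on the surface. -/
theorem curves_of_forms (hF : F.IsHomogeneous d) (hirr : Irreducible F)
    (hm : coeff (Finsupp.single 3 d) F ≠ 0) {v : Fin n → Fin 4 → ℂ} (h0 : ∀ i, v i 0 = 1)
    (hv : ∀ i, eval (v i) F = 0) (hs : ∀ i, eval (v i) (pderiv 3 F) ≠ 0) {ρ : Fin n → ℝ}
    (hρ : ∀ i, 0 ≤ ρ i) (hρd : ∑ i, ρ i ^ 2 = d)
    (hFI : ∀ (m : ℕ) (w : Fin n → ℕ) (G : Poly 3), G.IsHomogeneous m →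
      (∀ i, ρ i * m < w i) →
      (∀ i, G ∈ Ideal.span {F} ⊔ vecIdeal (v i) ^ w i ⊔ Ideal.span {X 0 - 1}) → F ∣ G)
    {P : Ideal (Poly 3)} (hP : IsCurveOn (Ideal.span {F}) P) :
    ∑ i, ENNReal.ofReal (ρ i) * mult P (v i) ≤ deg P := by
  classical
  have hlv : ∀ i, eval (v i) (X 0 : Poly 3) = 1 := fun i => by rw [eval_X]; exact h0 i
  have hFP : F ∈ P := hP.le (Ideal.mem_span_singleton_self F)
  have hF0 : F ≠ 0 := hirr.ne_zero
  by_cases h3P : pderiv 3 F ∈ P
  · -- the curve contains none of the points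
    have h1 : ∀ i, mult P (v i) = 0 := fun i => mult_eq_zero_of_not h3P (hlv i) (hs i)
    simp [h1]
  have hIp : (Ideal.span {F}).IsPrime := S.isPrime_span hirr
  obtain ⟨b0, A, e, a, hb00, hb0, hA, hloc⟩ :=
    exists_loc hF hm hIp hP.prime hP.homogeneous hP.dim hFP h3P
  obtain ⟨c, c2, hdeg, hc⟩ := exists_deg hP.prime hP.homogeneous hP.dim
  have hbh : (inc b0).IsHomogeneous e := inc_homogeneous hb0
  have hFb : ¬ F ∣ inc b0 := fun h1 => hloc.b_not (Ideal.mem_span_singleton.2 h1)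
  -- the multiplicities
  have hmult : ∀ i, ∃ μ C : ℕ, mult P (v i) = μ ∧ ∀ t,
      lam P (X 0) (v i) t ≤ μ * t + C ∧ μ * t ≤ lam P (X 0) (v i) t + C := fun i =>
    S.Up.exists_mult_linear hP.prime hP.homogeneous hP.dim (isHomogeneous_X ℂ 0)
      (fun s => S.Up.jetDim_eq hP.homogeneous (isHomogeneous_X ℂ 0) (hlv i) s)
  choose μ Cμ hμ hμ2 using hmult
  choose β hβ using fun i => S.exists_beta hF hm (h0 i) (hv i) (hs i) hirr hbh hFb
  let K : Fin n → ℕ → Ideal (Poly 3) := fun i w => S.K F (v i) w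
  have hKI : ∀ i w, Ideal.span {F} ≤ K i w := fun i w => le_sup_left.trans le_sup_left
  have hKf : ∀ i w, Module.Finite ℂ (Poly 3 ⧸ K i w) := fun i w =>
    finite_quot (v := v i) (s := w) (le_sup_right.trans le_sup_left)
  have hPK : ∀ i t, P ⊔ K i t = P ⊔ vecIdeal (v i) ^ t ⊔ Ideal.span {X 0 - 1} := by
    intro i t
    show P ⊔ (Ideal.span {F} ⊔ vecIdeal (v i) ^ t ⊔ Ideal.span {X 0 - 1}) = _
    rw [← sup_assoc, ← sup_assoc, sup_eq_left.2 hP.le]
  have hlamK : ∀ i t, finrank ℂ (Poly 3 ⧸ (P ⊔ K i t)) = lam P (X 0) (v i) t := by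
    intro i t
    rw [hPK]
    rfl
  have hC : ∀ i t, finrank ℂ (Poly 3 ⧸ (P ⊔ K i t ⊔ Ideal.span {A})) ≤ c * a := by
    intro i t
    have h1 : P ⊔ K i t ⊔ Ideal.span {A} =
        P ⊔ Ideal.span {A} ⊔ vecIdeal (v i) ^ t ⊔ Ideal.span {X 0 - 1} := by
      rw [hPK]
      rw [sup_assoc, sup_comm (Ideal.span {(X 0 - 1 : Poly 3)}), ← sup_assoc, sup_assoc P,
        sup_comm (vecIdeal (v i) ^ t), ← sup_assoc]
    rw [h1]
    exact exists_bound hP.prime hc hA hloc.A_not (isHomogeneous_X ℂ 0) (hlv i) t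
  -- the constants
  set B : ℕ := ∑ i, μ i * β i with hB
  set D : ℕ := ∑ i, Cμ i with hD
  set R : ℝ := ∑ i, ρ i with hR
  have hR0 : 0 ≤ R := Finset.sum_nonneg fun i _ => hρ i
  rw [hdeg]
  have hgoal : ∑ i, ρ i * μ i ≤ (c : ℝ) := by
    refine le_of_count (C := (c : ℝ) * a + c2 + n * (c * a) + B + D + (3 / 2 * R + n + d ^ 2))
      fun k m hk1 hm1 => ?_
    let w : Fin n → ℕ := fun i => ⌊ρ i * m⌋₊ + 1
    have hw1 : ∀ i, ρ i * m < w i := fun i => by
      show ρ i * m < ((⌊ρ i * m⌋₊ + 1 : ℕ) : ℝ)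
      push_cast
      exact Nat.lt_floor_add_one _
    have hw2 : ∀ i, (w i : ℝ) ≤ ρ i * m + 1 := fun i => by
      show ((⌊ρ i * m⌋₊ + 1 : ℕ) : ℝ) ≤ _
      push_cast
      linarith [Nat.floor_le (mul_nonneg (hρ i) (Nat.cast_nonneg m))]
    have hmain := count_main hloc (homog_span hF) hA hbh hKI hβ hC k m w (fun G hG hGK =>
      Ideal.mem_span_singleton.2 (hFI m w G hG hw1 hGK))
    -- the left-hand side
    have hL : ∀ i, k * (μ i * w i) ≤ (∑ j ∈ Finset.range k,
        finrank ℂ (Poly 3 ⧸ (P ⊔ K i (w i - j * β i)))) + k * k * (μ i * β i) + k * Cμ i := by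
      intro i
      have h1 : ∀ j ∈ Finset.range k, μ i * w i ≤
          finrank ℂ (Poly 3 ⧸ (P ⊔ K i (w i - j * β i))) + k * (μ i * β i) + Cμ i := by
        intro j hj
        rw [hlamK]
        have h2 := (hμ2 i (w i - j * β i)).2
        have h3 : w i ≤ (w i - j * β i) + j * β i := by omega
        have h4 : μ i * w i ≤ μ i * ((w i - j * β i) + j * β i) := Nat.mul_le_mul_left _ h3
        have h5 : μ i * (j * β i) ≤ k * (μ i * β i) := by
          have : j ≤ k := (Finset.mem_range.1 hj).le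
          calc μ i * (j * β i) = j * (μ i * β i) := by ring
            _ ≤ k * (μ i * β i) := Nat.mul_le_mul_right _ this
        have h6 : μ i * ((w i - j * β i) + j * β i) =
            μ i * (w i - j * β i) + μ i * (j * β i) := mul_add _ _ _
        omega
      have h2 := Finset.sum_le_sum h1
      rw [Finset.sum_const, Finset.card_range, smul_eq_mul, Finset.sum_add_distrib,
        Finset.sum_add_distrib, Finset.sum_const, Finset.sum_const, Finset.card_range,
        smul_eq_mul, smul_eq_mul] at h2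
      calc k * (μ i * w i) ≤ _ := h2
        _ = _ := by ring
    have hL2 : (∑ i, k * (μ i * w i)) ≤ (∑ i, ∑ j ∈ Finset.range k,
        finrank ℂ (Poly 3 ⧸ (P ⊔ K i (w i - j * β i)))) + k * k * B + k * D := by
      refine (Finset.sum_le_sum fun i (_ : i ∈ Finset.univ) => hL i).trans (le_of_eq ?_)
      rw [Finset.sum_add_distrib, Finset.sum_add_distrib, hB, hD, Finset.mul_sum,
        Finset.mul_sum]
    -- the Hilbert function of the curve
    have hH : ∑ j ∈ Finset.range k, hilb P (m + j * a - j * e) ≤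
        k * (c * m) + k * k * (c * a) + k * c2 := by
      have h1 : ∀ j ∈ Finset.range k, hilb P (m + j * a - j * e) ≤ c * m + k * (c * a) + c2 := by
        intro j hj
        refine (hc _).trans ?_
        have h2 : m + j * a - j * e ≤ m + k * a := by
          have : j * a ≤ k * a := Nat.mul_le_mul_right a (Finset.mem_range.1 hj).le
          omega
        calc c * (m + j * a - j * e) + c2 ≤ c * (m + k * a) + c2 := by gcongr
          _ = c * m + k * (c * a) + c2 := by ring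
      have h2 := Finset.sum_le_sum h1
      rw [Finset.sum_const, Finset.card_range, smul_eq_mul] at h2
      refine h2.trans (le_of_eq ?_)
      ring
    -- the Hilbert function of the surface
    have hS := hilb_surface hF0 hF m
    -- the conditions
    have hK2 : ∀ i, (2 * finrank ℂ (Poly 3 ⧸ K i (w i)) : ℝ) ≤
        ρ i ^ 2 * m ^ 2 + 3 * ρ i * m + 2 := by
      intro i
      have h1 := S.finrank_K hF hm (h0 i) (hv i) (hs i) (w i)
      have h2 : (2 * finrank ℂ (Poly 3 ⧸ K i (w i)) : ℝ) = w i * (w i + 1) := by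
        exact_mod_cast h1
      rw [h2]
      have h3 := hw2 i
      have h4 : (0 : ℝ) ≤ w i := Nat.cast_nonneg _
      have h5 : 0 ≤ ρ i * m := mul_nonneg (hρ i) (Nat.cast_nonneg m)
      nlinarith
    have hK3 : (2 * ∑ i, (finrank ℂ (Poly 3 ⧸ K i (w i)) : ℝ)) ≤
        d * m ^ 2 + 3 * R * m + 2 * n := by
      rw [Finset.mul_sum]
      refine (Finset.sum_le_sum fun i _ => hK2 i).trans (le_of_eq ?_)
      rw [Finset.sum_add_distrib, Finset.sum_add_distrib, ← Finset.sum_mul, hρd,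
        Finset.sum_const, Finset.card_univ, Fintype.card_fin, nsmul_eq_mul]
      have : ∑ i, 3 * ρ i * (m : ℝ) = 3 * R * m := by
        rw [hR, Finset.mul_sum, Finset.sum_mul]
      rw [this]
      ring
    -- everything in `ℝ`
    have hmainR : (hilb (Ideal.span {F}) m : ℝ) + ∑ i, ∑ j ∈ Finset.range k,
        (finrank ℂ (Poly 3 ⧸ (P ⊔ K i (w i - j * β i))) : ℝ) ≤
        ∑ i, (finrank ℂ (Poly 3 ⧸ K i (w i)) : ℝ) +
          ∑ j ∈ Finset.range k, (hilb P (m + j * a - j * e) : ℝ) + n * (k * k * (c * a)) := by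
      exact_mod_cast hmain
    have hL2R : (∑ i, (k : ℝ) * (μ i * w i)) ≤ (∑ i, ∑ j ∈ Finset.range k,
        (finrank ℂ (Poly 3 ⧸ (P ⊔ K i (w i - j * β i))) : ℝ)) + k * k * B + k * D := by
      exact_mod_cast hL2
    have hHR : ∑ j ∈ Finset.range k, (hilb P (m + j * a - j * e) : ℝ) ≤
        k * (c * m) + k * k * (c * a) + k * c2 := by
      exact_mod_cast hH
    have hSR : (d : ℝ) * m ^ 2 ≤ 2 * hilb (Ideal.span {F}) m + 2 * d ^ 2 * m := by
      exact_mod_cast hS
    have hLm : (k : ℝ) * m * ∑ i, ρ i * μ i ≤ ∑ i, (k : ℝ) * (μ i * w i) := by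
      rw [Finset.mul_sum]
      refine Finset.sum_le_sum fun i _ => ?_
      have h1 : (μ i : ℝ) * (ρ i * m) ≤ μ i * w i :=
        mul_le_mul_of_nonneg_left (hw1 i).le (Nat.cast_nonneg _)
      have h2 : (0 : ℝ) ≤ k := Nat.cast_nonneg k
      calc (k : ℝ) * m * (ρ i * μ i) = k * (μ i * (ρ i * m)) := by ring
        _ ≤ k * (μ i * w i) := mul_le_mul_of_nonneg_left h1 h2
    have hkR : (1 : ℝ) ≤ k := by exact_mod_cast hk1
    have hmR : (1 : ℝ) ≤ m := by exact_mod_cast hm1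
    have hkk : (k : ℝ) ≤ k ^ 2 := by nlinarith
    have hc2 : (0 : ℝ) ≤ c2 := Nat.cast_nonneg _
    have hca : (0 : ℝ) ≤ (c : ℝ) * a := by positivity
    have hB0 : (0 : ℝ) ≤ B := Nat.cast_nonneg _
    have hD0 : (0 : ℝ) ≤ D := Nat.cast_nonneg _
    have hn0 : (0 : ℝ) ≤ n := Nat.cast_nonneg _
    have hd0 : (0 : ℝ) ≤ (d : ℝ) ^ 2 := by positivity
    have key : (k : ℝ) * m * (∑ i, ρ i * μ i - c) ≤
        k ^ 2 * (c * a) + k * c2 + n * (k ^ 2 * (c * a)) + k ^ 2 * B + k * D +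
          (3 / 2 * R * m + n + d ^ 2 * m) := by
      have e1 : (k : ℝ) * m * (∑ i, ρ i * μ i - c) =
          k * m * ∑ i, ρ i * μ i - k * (c * m) := by ring
      rw [e1]
      nlinarith
    refine key.trans ?_
    have hm0 : (0 : ℝ) ≤ m := by linarith
    have hk0 : (0 : ℝ) ≤ (k : ℝ) ^ 2 := by positivity
    have e2 : ((c : ℝ) * a + c2 + n * (c * a) + B + D + (3 / 2 * R + n + d ^ 2)) * (m + k ^ 2) =
        k ^ 2 * (c * a) + k ^ 2 * c2 + n * (k ^ 2 * (c * a)) + k ^ 2 * B + k ^ 2 * D +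
          (3 / 2 * R * m + n * m + d ^ 2 * m) +
        (m * ((c : ℝ) * a + c2 + n * (c * a) + B + D) + k ^ 2 * (3 / 2 * R + n + d ^ 2)) := by
      ring
    rw [e2]
    have h1 : (k : ℝ) * c2 ≤ k ^ 2 * c2 := mul_le_mul_of_nonneg_right hkk hc2
    have h2 : (k : ℝ) * D ≤ k ^ 2 * D := mul_le_mul_of_nonneg_right hkk hD0
    have h3 : (n : ℝ) ≤ n * m := by nlinarith
    have h4 : (0 : ℝ) ≤ m * ((c : ℝ) * a + c2 + n * (c * a) + B + D) +
        k ^ 2 * (3 / 2 * R + n + d ^ 2) := by positivity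
    linarith
  -- back to `ℝ≥0∞`
  have h5 : ∀ i, ENNReal.ofReal (ρ i) * mult P (v i) = ENNReal.ofReal (ρ i * μ i) := fun i => by
    rw [hμ, ENNReal.ofReal_mul (hρ i), ENNReal.ofReal_natCast]
  simp only [h5]
  rw [← ENNReal.ofReal_sum_of_nonneg fun i _ => mul_nonneg (hρ i) (Nat.cast_nonneg _),
    ← ENNReal.ofReal_natCast]
  exact ENNReal.ofReal_le_ofReal hgoal

end Pool.Agent.Lib.MP_ed661f_ag.T
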