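import Mathlib

/-!
A prime of `D[X]` which is unramified over its contraction `(b)`.
-/

set_option autoImplicit false

open Polynomial

namespace Pool.Agent.Lib.MP_ed661f_ag.T

theorem exists_A {D : Type*} [CommRing D] {P : Ideal D[X]} (hP : P.IsPrime)
    (hfg : P.FG) {b : D} (hb : (Ideal.span {b}).IsPrime) (hPb : ∀ c : D, C c ∈ P ↔ c ∈ Ideal.span {b})
    {F : D[X]} (hF : F ∈ P) (hF' : derivative F ∉ P) :
    ∃ A, A ∉ P ∧ ∀ x ∈ P, ∃ y, A * x - C b * y ∈ Ideal.span {F} := by
  classical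
  have : IsDomain (D ⧸ Ideal.span {b}) := Ideal.Quotient.isDomain _
  let K := FractionRing (D ⧸ Ideal.span {b})
  let φ₀ : D →+* K := (algebraMap (D ⧸ Ideal.span {b}) K).comp (Ideal.Quotient.mk (Ideal.span {b}))
  let φ : D[X] →+* K[X] := mapRingHom φ₀
  have hφ₀ : ∀ c, φ₀ c = 0 ↔ c ∈ Ideal.span {b} := by
    intro c
    have h1 : φ₀ c = algebraMap (D ⧸ Ideal.span {b}) K (Ideal.Quotient.mk _ c) := rfl
    rw [h1, map_eq_zero_iff _ (IsFractionRing.injective (D ⧸ Ideal.span {b}) K),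
      Ideal.Quotient.eq_zero_iff_mem]
  -- the kernel
  have hker : ∀ x : D[X], φ x = 0 → ∃ y, x = C b * y := by
    intro x hx
    have h1 : C b ∣ x := by
      rw [C_dvd_iff_dvd_coeff]
      intro i
      have h2 : (φ x).coeff i = 0 := by rw [hx, coeff_zero]
      have h3 : (φ x).coeff i = φ₀ (x.coeff i) := by
        show (x.map φ₀).coeff i = _
        rw [coeff_map]
      rw [h3, hφ₀, Ideal.mem_span_singleton] at h2
      exact h2
    exact h1
  have hCbP : ∀ y, C b * y ∈ P := fun y =>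
    P.mul_mem_right _ ((hPb b).2 (Ideal.mem_span_singleton_self b))
  have hkerP : ∀ x : D[X], φ x = 0 → x ∈ P := by
    intro x hx
    obtain ⟨y, rfl⟩ := hker x hx
    exact hCbP y
  have hCφ : ∀ c : D, φ (C c) = C (φ₀ c) := fun c => by
    show (C c).map φ₀ = _
    rw [map_C]
  -- denominators
  have hden : ∀ r : K[X], ∃ (c : D) (r0 : D[X]), c ∉ Ideal.span {b} ∧ φ (C c) * r = φ r0 := by
    intro r
    obtain ⟨c', hc', hr⟩ := IsLocalization.integerNormalization_spec
      (nonZeroDivisors (D ⧸ Ideal.span {b})) (S := K) r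
    obtain ⟨c, rfl⟩ := Ideal.Quotient.mk_surjective c'
    obtain ⟨r0, hr0⟩ := Polynomial.map_surjective (Ideal.Quotient.mk (Ideal.span {b}))
      Ideal.Quotient.mk_surjective
      (IsLocalization.integerNormalization (nonZeroDivisors (D ⧸ Ideal.span {b})) r)
    refine ⟨c, r0, ?_, ?_⟩
    · intro hc
      have h1 := nonZeroDivisors.ne_zero hc'
      exact h1 (Ideal.Quotient.eq_zero_iff_mem.2 hc)
    · have h2 : φ r0 = (r0.map (Ideal.Quotient.mk (Ideal.span {b}))).map
          (algebraMap (D ⧸ Ideal.span {b}) K) := by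
        rw [Polynomial.map_map]
        rfl
      rw [h2, hr0, hr, hCφ]
      rw [Algebra.smul_def]
      rfl
  have hmulc : ∀ {c c' : D}, c ∉ Ideal.span {b} → c' ∉ Ideal.span {b} →
      c * c' ∉ Ideal.span {b} := fun h h' h'' => (hb.mem_or_mem h'').elim h h'
  -- elements of the extended ideal
  have hmem : ∀ r ∈ P.map φ, ∃ (c : D) (x : D[X]), c ∉ Ideal.span {b} ∧ x ∈ P ∧
      φ (C c) * r = φ x := by
    intro r hr
    refine Submodule.span_induction (p := fun r _ => ∃ (c : D) (x : D[X]),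
      c ∉ Ideal.span {b} ∧ x ∈ P ∧ φ (C c) * r = φ x) ?_ ?_ ?_ ?_ hr
    · rintro _ ⟨x, hx, rfl⟩
      refine ⟨1, x, ?_, hx, ?_⟩
      · intro h1
        exact hb.ne_top ((Ideal.eq_top_iff_one _).2 h1)
      · rw [C_1, map_one, one_mul]
    · refine ⟨1, 0, ?_, P.zero_mem, by simp⟩
      intro h1
      exact hb.ne_top ((Ideal.eq_top_iff_one _).2 h1)
    · rintro r r' - - ⟨c, x, hc, hx, h1⟩ ⟨c', x', hc', hx', h2⟩
      refine ⟨c * c', C c' * x + C c * x', hmulc hc hc',
        P.add_mem (P.mul_mem_left _ hx) (P.mul_mem_left _ hx'), ?_⟩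
      rw [map_add, map_mul φ (C c'), map_mul φ (C c), ← h1, ← h2, C_mul, map_mul]
      ring
    · rintro s r - ⟨c, x, hc, hx, h1⟩
      obtain ⟨c', s0, hc', hs⟩ := hden s
      refine ⟨c * c', s0 * x, hmulc hc hc', P.mul_mem_left _ hx, ?_⟩
      rw [map_mul φ s0, ← h1, ← hs, C_mul, map_mul, smul_eq_mul]
      ring
  -- membership descends
  have hdesc : ∀ x : D[X], φ x ∈ P.map φ → x ∈ P := by
    intro x hx
    obtain ⟨c, x', hc, hx', h1⟩ := hmem _ hx
    have h2 : C c * x - x' ∈ P := by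
      apply hkerP
      rw [map_sub, map_mul, h1, sub_self]
    have h3 : C c * x ∈ P := by
      have := P.add_mem h2 hx'
      rwa [sub_add_cancel] at this
    rcases hP.mem_or_mem h3 with h4 | h4
    · exact absurd ((hPb c).1 h4) hc
    · exact h4
  -- the generator
  obtain ⟨p, hp⟩ : ∃ p, P.map φ = Ideal.span {p} :=
    (IsPrincipalIdealRing.principal (P.map φ)).1
  have hpm : p ∈ P.map φ := by rw [hp]; exact Ideal.mem_span_singleton_self p
  have hdvd : ∀ x ∈ P, ∃ h, φ x = h * p := by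
    intro x hx
    have h1 : φ x ∈ Ideal.span {p} := by rw [← hp]; exact Ideal.mem_map_of_mem φ hx
    obtain ⟨h, hh⟩ := Ideal.mem_span_singleton'.1 h1
    exact ⟨h, hh.symm⟩
  obtain ⟨q, hq⟩ := hdvd F hF
  have hqP : q ∉ P.map φ := by
    intro hqm
    rw [hp] at hqm
    obtain ⟨r, rfl⟩ := Ideal.mem_span_singleton'.1 hqm
    apply hF'
    apply hdesc
    have h1 : φ (derivative F) = derivative (φ F) := by
      show (derivative F).map φ₀ = derivative (F.map φ₀)
      rw [derivative_map]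
    rw [h1, hq, hp, Ideal.mem_span_singleton]
    refine ⟨derivative r * p + r * derivative p + r * derivative p, ?_⟩
    rw [derivative_mul, derivative_mul]
    ring
  obtain ⟨cq, q0, hcq, hq0⟩ := hden q
  have hq0P : q0 ∉ P := by
    intro h
    apply hqP
    have h1 : φ (C cq) * q ∈ P.map φ := by rw [hq0]; exact Ideal.mem_map_of_mem φ h
    have hu : IsUnit (φ (C cq)) := by
      rw [hCφ, isUnit_C]
      rw [isUnit_iff_ne_zero]
      intro h0
      exact hcq ((hφ₀ _).1 h0)
    exact (Ideal.unit_mul_mem_iff_mem _ hu).1 h1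
  -- one element
  have hone : ∀ x ∈ P, ∃ c : D, c ∉ Ideal.span {b} ∧
      ∃ y, q0 * C c * x - C b * y ∈ Ideal.span {F} := by
    intro x hx
    obtain ⟨h, hh⟩ := hdvd x hx
    obtain ⟨ch, h0, hch, hh0⟩ := hden h
    have h1 : φ (q0 * C ch * x - C cq * F * h0) = 0 := by
      rw [map_sub, map_mul, map_mul, map_mul, map_mul, ← hq0, ← hh0, hh, hq]
      ring
    obtain ⟨y, hy⟩ := hker _ h1
    refine ⟨ch, hch, y, ?_⟩
    rw [Ideal.mem_span_singleton]
    refine ⟨C cq * h0, ?_⟩
    rw [← hy]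
    ring
  -- all generators
  obtain ⟨s, hs⟩ := hfg
  have hsP : ∀ x ∈ s, x ∈ P := fun x hx => by
    rw [← hs]; exact Ideal.subset_span hx
  choose! c hc1 hc2 using hone
  let A := q0 * C (∏ x ∈ s, c x)
  have hcprod : ∏ x ∈ s, c x ∉ Ideal.span {b} := by
    intro h1
    rw [hb.prod_mem_iff] at h1
    obtain ⟨x, hx, h2⟩ := h1
    exact hc1 x (hsP x hx) h2
  refine ⟨A, ?_, ?_⟩
  · intro hA
    rcases hP.mem_or_mem hA with h1 | h1
    · exact hq0P h1
    · exact hcprod ((hPb _).1 h1)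
  · intro x hx
    rw [← hs] at hx
    refine Submodule.span_induction (p := fun x _ => ∃ y, A * x - C b * y ∈ Ideal.span {F})
      ?_ ?_ ?_ ?_ hx
    · intro x hx
      obtain ⟨y, hy⟩ := hc2 x (hsP x hx)
      refine ⟨C (∏ z ∈ s.erase x, c z) * y, ?_⟩
      have e : A * x - C b * (C (∏ z ∈ s.erase x, c z) * y) =
          C (∏ z ∈ s.erase x, c z) * (q0 * C (c x) * x - C b * y) := by
        show q0 * C (∏ x ∈ s, c x) * x - _ = _
        rw [← Finset.mul_prod_erase s c hx, C_mul]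
        ring
      rw [e]
      exact Ideal.mul_mem_left _ _ hy
    · exact ⟨0, by simp⟩
    · rintro x x' - - ⟨y, hy⟩ ⟨y', hy'⟩
      refine ⟨y + y', ?_⟩
      have e : A * (x + x') - C b * (y + y') = (A * x - C b * y) + (A * x' - C b * y') := by ring
      rw [e]
      exact Ideal.add_mem _ hy hy'
    · rintro t x - ⟨y, hy⟩
      refine ⟨t * y, ?_⟩
      have e : A * (t • x) - C b * (t * y) = t * (A * x - C b * y) := by
        rw [smul_eq_mul]; ring
      rw [e]
      exact Ideal.mul_mem_left _ _ hy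

end Pool.Agent.Lib.MP_ed661f_ag.T
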