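import Pool.Agent.Lib.MP_ed661f_ag.T.Curves
import Pool.Agent.Lib.MP_ed661f_ag.S.Iface

/-!
The inequality for forms `FI` implies the inequality for all curves.
-/

set_option autoImplicit false

open MvPolynomial Module
open scoped ENNReal

namespace Pool.Agent.Lib.MP_ed661f_ag.T

open Pool.Agent.Lib.MP_ed661f_ag.H

/-- **forms and curves**, equal weights -/
theorem curves_of_FI {d n : ℕ} (hn : 1 ≤ n) {F : Poly 3} (hF : F.IsHomogeneous d)
    (hirr : Irreducible F) (hm : coeff (Finsupp.single 3 d) F ≠ 0) {v : Fin n → Fin 4 → ℂ}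
    (h0 : ∀ i, v i 0 = 1) (hv : ∀ i, eval (v i) F = 0) (hs : ∀ i, eval (v i) (pderiv 3 F) ≠ 0)
    (hFI : S.FI d F v) {P : Ideal (Poly 3)} (hP : IsCurveOn (Ideal.span {F}) P) :
    (d : ℝ≥0∞) * (∑ i, mult P (v i)) ^ 2 ≤ n * (deg P) ^ 2 := by
  have hnR : (0 : ℝ) < n := by exact_mod_cast hn
  have hdn : (0 : ℝ) ≤ (d : ℝ) / n := by positivity
  set r : ℝ := Real.sqrt ((d : ℝ) / n) with hr
  have hr0 : 0 ≤ r := Real.sqrt_nonneg _
  have hr2 : r ^ 2 = (d : ℝ) / n := Real.sq_sqrt hdn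
  have h1 := curves_of_forms hF hirr hm h0 hv hs (ρ := fun _ => r) (fun _ => hr0)
    (by
      rw [Finset.sum_const, Finset.card_univ, Fintype.card_fin, nsmul_eq_mul, hr2]
      field_simp)
    (fun m w G hG hw hGK => by
      have : Nonempty (Fin n) := ⟨⟨0, hn⟩⟩
      obtain ⟨i0, -, hi0⟩ := Finset.exists_min_image Finset.univ w Finset.univ_nonempty
      refine hFI m (w i0) G hG (fun i => ?_) ?_
      · have h2 : Ideal.span {F} ⊔ vecIdeal (v i) ^ w i ⊔ Ideal.span {X 0 - 1} ≤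
            Ideal.span {F} ⊔ vecIdeal (v i) ^ w i0 ⊔ Ideal.span {X 0 - 1} :=
          sup_le_sup_right (sup_le_sup_left
            (Ideal.pow_le_pow_right (hi0 i (Finset.mem_univ i))) _) _
        exact h2 (hGK i)
      · have h2 : r * m < w i0 := hw i0
        have h3 : (r * m) ^ 2 < (w i0 : ℝ) ^ 2 :=
          pow_lt_pow_left₀ h2 (mul_nonneg hr0 (Nat.cast_nonneg m)) (by norm_num)
        have h4 : (d : ℝ) * m ^ 2 < n * (w i0 : ℝ) ^ 2 := by
          rw [mul_pow, hr2] at h3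
          have h5 : (d : ℝ) * m ^ 2 = n * ((d : ℝ) / n * m ^ 2) := by
            field_simp
          rw [h5]
          exact mul_lt_mul_of_pos_left h3 hnR
        exact_mod_cast h4)
    hP
  rw [← Finset.mul_sum] at h1
  have h2 : ENNReal.ofReal r ^ 2 = (d : ℝ≥0∞) / n := by
    rw [← ENNReal.ofReal_pow hr0, hr2, ENNReal.ofReal_div_of_pos hnR, ENNReal.ofReal_natCast,
      ENNReal.ofReal_natCast]
  have hn0 : (n : ℝ≥0∞) ≠ 0 := by
    have : n ≠ 0 := by omega
    exact_mod_cast this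
  calc (d : ℝ≥0∞) * (∑ i, mult P (v i)) ^ 2 =
      n * ((d : ℝ≥0∞) / n * (∑ i, mult P (v i)) ^ 2) := by
        rw [← mul_assoc, ENNReal.mul_div_cancel hn0 (ENNReal.natCast_ne_top n)]
    _ = n * (ENNReal.ofReal r * ∑ i, mult P (v i)) ^ 2 := by rw [mul_pow, h2]
    _ ≤ n * (deg P) ^ 2 := by gcongr

end Pool.Agent.Lib.MP_ed661f_ag.T
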