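import Pool.Agent.Lib.MP_ed661f_ag.T.Local
import Pool.Agent.Lib.MP_ed661f_ag.H.HilbMul
import Pool.Agent.Lib.MP_ed661f_ag.H.Basis

/-!
The forms of degree `m` in `Jk`: how many there are, and how many conditions are needed to make
them vanish to high order at the points.
-/

set_option autoImplicit false

open MvPolynomial Module

namespace Pool.Agent.Lib.MP_ed661f_ag.T

open Pool.Agent.Lib.MP_ed661f_ag.H

variable {N : ℕ}

/-- the forms of degree `m` in the ideal `J` -/
noncomputable def Fm (J : Ideal (Poly N)) (m : ℕ) : Submodule ℂ (Poly N) :=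
  homogeneousSubmodule (Fin (N + 1)) ℂ m ⊓ J.restrictScalars ℂ

theorem mem_Fm {J : Ideal (Poly N)} {m : ℕ} {G : Poly N} :
    G ∈ Fm J m ↔ G.IsHomogeneous m ∧ G ∈ J := Iff.rfl

instance finite_Fm (J : Ideal (Poly N)) (m : ℕ) : Module.Finite ℂ (Fm J m) := by
  have := finite_formsN (N := N) m
  exact Submodule.finiteDimensional_of_le (inf_le_left : Fm J m ≤ _)

theorem Fm_mono {J J' : Ideal (Poly N)} (h : J ≤ J') (m : ℕ) : Fm J m ≤ Fm J' m :=
  fun _ hx => ⟨hx.1, h hx.2⟩

theorem Fm_top (m : ℕ) : Fm (⊤ : Ideal (Poly N)) m = homogeneousSubmodule (Fin (N + 1)) ℂ m := by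
  ext x
  simp [Fm]

/-- the Hilbert function counts the forms modulo those in the ideal -/
theorem hilb_add (J : Ideal (Poly N)) (m : ℕ) :
    hilb J m + finrank ℂ (Fm J m) = finrank ℂ (Fm (⊤ : Ideal (Poly N)) m) := by
  have hf := finite_formsN (N := N) m
  rw [Fm_top]
  let f : homogeneousSubmodule (Fin (N + 1)) ℂ m →ₗ[ℂ] Poly N ⧸ J :=
    (Ideal.Quotient.mkₐ ℂ J).toLinearMap.domRestrict _
  have h1 := f.finrank_range_add_finrank_ker
  have h2 : LinearMap.range f = (homogeneousSubmodule (Fin (N + 1)) ℂ m).map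
      (Ideal.Quotient.mkₐ ℂ J).toLinearMap := LinearMap.range_domRestrict _ _
  have h3 : finrank ℂ (LinearMap.ker f) = finrank ℂ (Fm J m) := by
    have e : (LinearMap.ker f).map (homogeneousSubmodule (Fin (N + 1)) ℂ m).subtype = Fm J m := by
      ext x
      constructor
      · rintro ⟨y, hy, rfl⟩
        refine ⟨y.2, ?_⟩
        have hy' : Ideal.Quotient.mk J y.1 = 0 := hy
        exact Ideal.Quotient.eq_zero_iff_mem.1 hy'
      · rintro ⟨hx1, hx2⟩
        refine ⟨⟨x, hx1⟩, ?_, rfl⟩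
        show Ideal.Quotient.mk J x = 0
        exact Ideal.Quotient.eq_zero_iff_mem.2 hx2
    rw [← e]
    exact (LinearEquiv.finrank_eq
      (Submodule.equivMapOfInjective _ (Submodule.injective_subtype _) _))
  have h4 : hilb J m = finrank ℂ (LinearMap.range f) := by
    rw [h2]
    rfl
  rw [h4, ← h3]
  exact h1

variable {I P : Ideal (Poly N)} {A b : Poly N} {a e : ℕ}

/-- the quotient `A ^ k G / b ^ k` is homogeneous -/
theorem exists_hom (hIh : Homog I) (hA : A.IsHomogeneous a) (hb : b.IsHomogeneous e) {k m : ℕ}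
    (hkm : k * e ≤ m + k * a) {G : Poly N} (hG : G ∈ Fm (Jk I A b k) m) :
    ∃ H : Poly N, H.IsHomogeneous (m + k * a - k * e) ∧ A ^ k * G - b ^ k * H ∈ I := by
  obtain ⟨hG1, H, hH⟩ := hG
  refine ⟨homogeneousComponent (m + k * a - k * e) H, homogeneousComponent_isHomogeneous _ _, ?_⟩
  have h1 := hIh _ hH (m + k * a)
  have hA' : (A ^ k * G).IsHomogeneous (m + k * a) := by
    have := (hA.pow k).mul (show G.IsHomogeneous m from hG1)
    have e1 : a * k + m = m + k * a := by ring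
    rwa [e1] at this
  have hb' : (b ^ k).IsHomogeneous (k * e) := by
    have := hb.pow k
    rwa [mul_comm] at this
  rw [map_sub, mul_comm (b ^ k) H, hc_mul H (b ^ k) hb', if_pos hkm,
    homogeneousComponent_of_mem hA', if_pos rfl, mul_comm _ (b ^ k)] at h1
  exact h1

/-- the case of degrees in which there is no quotient -/
theorem mem_of_lt (h : Loc I P A b) (hIh : Homog I) (hA : A.IsHomogeneous a)
    (hb : b.IsHomogeneous e) {k m : ℕ} (hkm : m + k * a < k * e) {G : Poly N}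
    (hG : G ∈ Fm (Jk I A b k) m) : G ∈ I := by
  obtain ⟨hG1, H, hH⟩ := hG
  have h1 := hIh _ hH (m + k * a)
  have hA' : (A ^ k * G).IsHomogeneous (m + k * a) := by
    have := (hA.pow k).mul (show G.IsHomogeneous m from hG1)
    have e1 : a * k + m = m + k * a := by ring
    rwa [e1] at this
  have hb' : (b ^ k).IsHomogeneous (k * e) := by
    have := hb.pow k
    rwa [mul_comm] at this
  rw [map_sub, mul_comm (b ^ k) H, hc_mul H (b ^ k) hb', if_neg (by omega),
    homogeneousComponent_of_mem hA', if_pos rfl, sub_zero] at h1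
  rcases h.I_prime.mem_or_mem h1 with h2 | h2
  · exact absurd (h.I_prime.mem_of_pow_mem k h2) h.A_not_I
  · exact h2

/-- one more order along the curve costs at most the Hilbert function of the curve -/
theorem count_step (h : Loc I P A b) (hIh : Homog I) (hA : A.IsHomogeneous a)
    (hb : b.IsHomogeneous e) (k m : ℕ) :
    finrank ℂ (Fm (Jk I A b k) m) ≤
      finrank ℂ (Fm (Jk I A b (k + 1)) m) + hilb P (m + k * a - k * e) := by
  by_cases hkm : k * e ≤ m + k * a
  swap
  · have h1 : Fm (Jk I A b k) m ≤ Fm (Jk I A b (k + 1)) m := fun G hG =>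
      ⟨hG.1, I_le_Jk _ (mem_of_lt h hIh hA hb (by omega) hG)⟩
    exact (Submodule.finrank_mono h1).trans (Nat.le_add_right _ _)
  set M := m + k * a - k * e with hM
  have hex : ∀ G : Fm (Jk I A b k) m, ∃ H : Poly N, H.IsHomogeneous M ∧
      A ^ k * G.1 - b ^ k * H ∈ I := fun G => exists_hom hIh hA hb hkm G.2
  choose Hf hHf1 hHf2 using hex
  have huniq : ∀ (G : Fm (Jk I A b k) m) (H : Poly N), A ^ k * G.1 - b ^ k * H ∈ I →
      Ideal.Quotient.mk P (Hf G) = Ideal.Quotient.mk P H := by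
    intro G H hH
    rw [Ideal.Quotient.eq]
    exact h.le (h.uniq (hHf2 G) hH)
  let ψ : Fm (Jk I A b k) m →ₗ[ℂ] Poly N ⧸ P :=
    { toFun := fun G => Ideal.Quotient.mk P (Hf G)
      map_add' := by
        intro G G'
        rw [← map_add]
        apply huniq
        have e1 : A ^ k * (G + G').1 - b ^ k * (Hf G + Hf G') =
            (A ^ k * G.1 - b ^ k * Hf G) + (A ^ k * G'.1 - b ^ k * Hf G') := by
          rw [Submodule.coe_add]; ring
        rw [e1]
        exact I.add_mem (hHf2 G) (hHf2 G')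
      map_smul' := by
        intro c G
        have e0 : (RingHom.id ℂ) c • Ideal.Quotient.mk P (Hf G) =
            Ideal.Quotient.mk P (c • Hf G) := rfl
        rw [e0]
        apply huniq
        have e1 : A ^ k * (c • G).1 - b ^ k * (c • Hf G) =
            C c * (A ^ k * G.1 - b ^ k * Hf G) := by
          rw [Submodule.coe_smul, smul_eq_C_mul, smul_eq_C_mul]; ring
        rw [e1]
        exact I.mul_mem_left _ (hHf2 G) }
  have hψ : ∀ G, ψ G = Ideal.Quotient.mk P (Hf G) := fun G => rfl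
  have h1 := ψ.finrank_range_add_finrank_ker
  have h2 : finrank ℂ (LinearMap.range ψ) ≤ hilb P M := by
    have hf := finite_formsN (N := N) M
    have hle : LinearMap.range ψ ≤ (homogeneousSubmodule (Fin (N + 1)) ℂ M).map
        (Ideal.Quotient.mkₐ ℂ P).toLinearMap := by
      rintro _ ⟨G, rfl⟩
      exact ⟨Hf G, hHf1 G, rfl⟩
    exact Submodule.finrank_mono hle
  have h3 : finrank ℂ (LinearMap.ker ψ) ≤ finrank ℂ (Fm (Jk I A b (k + 1)) m) := by
    have hle : (LinearMap.ker ψ).map (Fm (Jk I A b k) m).subtype ≤ Fm (Jk I A b (k + 1)) m := by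
      rintro _ ⟨G, hG, rfl⟩
      have hG' : Ideal.Quotient.mk P (Hf G) = 0 := hG
      rw [Ideal.Quotient.eq_zero_iff_mem] at hG'
      exact ⟨G.2.1, h.succ_of_mem (hHf2 G) hG'⟩
    rw [LinearEquiv.finrank_eq
      (Submodule.equivMapOfInjective _ (Submodule.injective_subtype _) (LinearMap.ker ψ))]
    exact Submodule.finrank_mono hle
  omega

/-- forms of degree `m` in `Jk` -/
theorem count_le (h : Loc I P A b) (hIh : Homog I) (hA : A.IsHomogeneous a)
    (hb : b.IsHomogeneous e) (k m : ℕ) :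
    finrank ℂ (Fm (⊤ : Ideal (Poly N)) m) ≤
      finrank ℂ (Fm (Jk I A b k) m) +
        ∑ j ∈ Finset.range k, hilb P (m + j * a - j * e) := by
  induction k with
  | zero => rw [Jk_zero]; simp
  | succ k ih =>
    rw [Finset.sum_range_succ]
    have h1 := count_step h hIh hA hb k m
    omega

/-- the image of the ideal `J` modulo `K` -/
theorem finrank_image (J K : Ideal (Poly N)) [Module.Finite ℂ (Poly N ⧸ K)] :
    finrank ℂ ((J.restrictScalars ℂ : Submodule ℂ (Poly N)).map
      (Ideal.Quotient.mkₐ ℂ K).toLinearMap) + finrank ℂ (Poly N ⧸ (J ⊔ K)) =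
        finrank ℂ (Poly N ⧸ K) := by
  let g : (Poly N ⧸ K) →ₗ[ℂ] (Poly N ⧸ (J ⊔ K)) :=
    (Ideal.Quotient.factorₐ ℂ (le_sup_right : K ≤ J ⊔ K)).toLinearMap
  have hgs : Function.Surjective g := Ideal.Quotient.factor_surjective (le_sup_right : K ≤ J ⊔ K)
  have hker : LinearMap.ker g = (J.restrictScalars ℂ : Submodule ℂ (Poly N)).map
      (Ideal.Quotient.mkₐ ℂ K).toLinearMap := by
    ext x
    obtain ⟨y, rfl⟩ := Ideal.Quotient.mk_surjective x
    have e1 : g (Ideal.Quotient.mk K y) = Ideal.Quotient.mk (J ⊔ K) y := rfl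
    rw [LinearMap.mem_ker, e1, Ideal.Quotient.eq_zero_iff_mem]
    constructor
    · intro hy
      obtain ⟨c, hc, d, hd, rfl⟩ := Submodule.mem_sup.1 hy
      refine ⟨c, hc, ?_⟩
      show Ideal.Quotient.mk K c = Ideal.Quotient.mk K (c + d)
      rw [map_add, Ideal.Quotient.eq_zero_iff_mem.2 hd, add_zero]
    · rintro ⟨c, hc, hcy⟩
      have hcy' : Ideal.Quotient.mk K c = Ideal.Quotient.mk K y := hcy
      rw [Ideal.Quotient.eq] at hcy'
      have e2 : y = c - (c - y) := by ring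
      rw [e2]
      exact Ideal.sub_mem _ (Ideal.mem_sup_left hc) (Ideal.mem_sup_right hcy')
  have h1 := LinearMap.finrank_range_add_finrank_ker g
  rw [LinearMap.range_eq_top.2 hgs, finrank_top, hker] at h1
  omega

/-- several linear conditions -/
theorem finrank_le_sum {V : Type*} [AddCommGroup V] [Module ℂ V] [Module.Finite ℂ V] {n : ℕ}
    {W : Fin n → Type*} [∀ i, AddCommGroup (W i)] [∀ i, Module ℂ (W i)]
    [∀ i, Module.Finite ℂ (W i)] (φ : ∀ i, V →ₗ[ℂ] W i) :
    finrank ℂ V ≤ finrank ℂ (⨅ i, LinearMap.ker (φ i) : Submodule ℂ V) +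
      ∑ i, finrank ℂ (W i) := by
  have h1 := (LinearMap.pi φ).finrank_range_add_finrank_ker
  rw [LinearMap.ker_pi] at h1
  have h2 : finrank ℂ (LinearMap.range (LinearMap.pi φ)) ≤ ∑ i, finrank ℂ (W i) := by
    rw [← Module.finrank_pi_fintype ℂ]
    exact Submodule.finrank_le _
  omega

/-- conditions at several points -/
theorem count_cond {n : ℕ} (J I : Ideal (Poly N)) (K : Fin n → Ideal (Poly N))
    [∀ i, Module.Finite ℂ (Poly N ⧸ K i)] (m : ℕ)
    (hK : ∀ G : Poly N, G.IsHomogeneous m → (∀ i, G ∈ K i) → G ∈ I) :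
    finrank ℂ (Fm J m) + ∑ i, finrank ℂ (Poly N ⧸ (J ⊔ K i)) ≤
      finrank ℂ (Fm I m) + ∑ i, finrank ℂ (Poly N ⧸ K i) := by
  classical
  let Wi : ∀ i, Submodule ℂ (Poly N ⧸ K i) := fun i =>
    (J.restrictScalars ℂ : Submodule ℂ (Poly N)).map (Ideal.Quotient.mkₐ ℂ (K i)).toLinearMap
  let φ : ∀ i, Fm J m →ₗ[ℂ] Wi i :=
    fun i => LinearMap.codRestrict (Wi i)
      ((Ideal.Quotient.mkₐ ℂ (K i)).toLinearMap.comp (Submodule.subtype _))
      (fun G => ⟨G.1, G.2.2, rfl⟩)
  have h1 := finrank_le_sum (V := Fm J m) (W := fun i => Wi i) φ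
  have h3 : finrank ℂ (⨅ i, LinearMap.ker (φ i) : Submodule ℂ (Fm J m)) ≤
      finrank ℂ (Fm I m) := by
    have hle : (⨅ i, LinearMap.ker (φ i) : Submodule ℂ (Fm J m)).map (Fm J m).subtype ≤
        Fm I m := by
      rintro _ ⟨G, hG, rfl⟩
      refine ⟨G.2.1, hK _ G.2.1 fun i => ?_⟩
      have h4 : φ i G = 0 := by
        have := (Submodule.mem_iInf _).1 hG i
        rwa [LinearMap.mem_ker] at this
      have h5 : Ideal.Quotient.mk (K i) G.1 = 0 := congrArg Subtype.val h4
      exact Ideal.Quotient.eq_zero_iff_mem.1 h5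
    rw [LinearEquiv.finrank_eq
      (Submodule.equivMapOfInjective _ (Submodule.injective_subtype _) _)]
    exact Submodule.finrank_mono hle
  have h4 : ∀ i, finrank ℂ (Wi i) + finrank ℂ (Poly N ⧸ (J ⊔ K i)) =
        finrank ℂ (Poly N ⧸ K i) := fun i => finrank_image J (K i)
  have h5 : ∑ i, finrank ℂ (Poly N ⧸ K i) =
      ∑ i, finrank ℂ (Wi i) + ∑ i, finrank ℂ (Poly N ⧸ (J ⊔ K i)) := by
    rw [← Finset.sum_add_distrib]
    exact Finset.sum_congr rfl fun i _ => (h4 i).symm
  omega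

/-- **the count**: all together -/
theorem count_main {n : ℕ} (h : Loc I P A b) (hIh : Homog I) (hA : A.IsHomogeneous a)
    (hb : b.IsHomogeneous e) {K : Fin n → ℕ → Ideal (Poly N)} (hI : ∀ i w, I ≤ K i w)
    [∀ i w, Module.Finite ℂ (Poly N ⧸ K i w)] {β : Fin n → ℕ}
    (hβ : ∀ i w f, b * f ∈ K i w → f ∈ K i (w - β i)) {C : ℕ}
    (hC : ∀ i t, finrank ℂ (Poly N ⧸ (P ⊔ K i t ⊔ Ideal.span {A})) ≤ C) (k m : ℕ)
    (w : Fin n → ℕ)
    (hK : ∀ G : Poly N, G.IsHomogeneous m → (∀ i, G ∈ K i (w i)) → G ∈ I) :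
    hilb I m + ∑ i, ∑ j ∈ Finset.range k, finrank ℂ (Poly N ⧸ (P ⊔ K i (w i - j * β i))) ≤
      ∑ i, finrank ℂ (Poly N ⧸ K i (w i)) + ∑ j ∈ Finset.range k, hilb P (m + j * a - j * e) +
        n * (k * k * C) := by
  have h1 := count_le h hIh hA hb k m
  have h2 := count_cond (Jk I A b k) I (fun i => K i (w i)) m hK
  have h3 := hilb_add I m
  have h4 : ∑ i, ∑ j ∈ Finset.range k, finrank ℂ (Poly N ⧸ (P ⊔ K i (w i - j * β i))) ≤
      ∑ i, (finrank ℂ (Poly N ⧸ (Jk I A b k ⊔ K i (w i))) + k * k * C) :=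
    Finset.sum_le_sum fun i _ => local_sum h (hI i) (hβ i) (hC i) k (w i)
  rw [Finset.sum_add_distrib, Finset.sum_const, Finset.card_univ, Fintype.card_fin,
    smul_eq_mul] at h4
  omega

end Pool.Agent.Lib.MP_ed661f_ag.T
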