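import Pool.Agent.Lib.MP_ed661f_ag.T.Global
import Pool.Agent.Lib.MP_ed661f_ag.H.Limit
import Pool.Agent.Lib.MP_ed661f_ag.H.Degrees

/-!
The passage to the limit.
-/

set_option autoImplicit false

open MvPolynomial Filter Topology
open scoped ENNReal

namespace Pool.Agent.Lib.MP_ed661f_ag.T

open Pool.Agent.Lib.MP_ed661f_ag.H

variable {N : ℕ}

theorem sum_liminf_le {n : ℕ} (f : Fin n → ℕ → ℝ≥0∞) :
    ∑ i, liminf (f i) atTop ≤ liminf (fun r => ∑ i, f i r) atTop := by
  have h := MeasureTheory.lintegral_liminf_le (μ := MeasureTheory.Measure.count)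
    (u := (atTop : Filter ℕ)) (f := fun r (i : Fin n) => f i r) (fun r => measurable_of_finite _)
  simp only [MeasureTheory.lintegral_count, tsum_fintype] at h
  exact h

/-- the multiplicities are bounded if the slices are bounded by linear functions -/
theorem mult_sum_le_of_lam {n : ℕ} {P : Ideal (Poly N)} {l : Poly N}
    {v : Fin n → Fin (N + 1) → ℂ} (hlv : ∀ i, MvPolynomial.eval (v i) l = 1) {δ : ℝ}
    (h : ∀ ε : ℝ, 0 < ε → ∃ D : ℝ, ∀ t : ℕ,
      (∑ i, (lam P l (v i) t : ℝ)) ≤ (δ + ε) * t + D) :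
    ∑ i, mult P (v i) ≤ ENNReal.ofReal δ := by
  have key : ∀ ε : ℝ, 0 < ε → ∑ i, mult P (v i) ≤ ENNReal.ofReal (δ + ε) := by
    intro ε hε
    obtain ⟨D, hD⟩ := h ε hε
    have hj : ∀ r : ℕ, ∑ i, 2 * (jetDim P (v i) r : ℝ) ≤
        (δ + ε) * (r * (r + 1)) + 2 * D * r := by
      intro r
      have h1 : (∑ i, (jetDim P (v i) r : ℝ)) ≤
          ∑ u ∈ Finset.range r, ((δ + ε) * ((u : ℝ) + 1) + D) := by
        have h2 : (∑ i, (jetDim P (v i) r : ℝ)) ≤
            ∑ i, ∑ u ∈ Finset.range r, (lam P l (v i) (u + 1) : ℝ) := by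
          refine Finset.sum_le_sum fun i _ => ?_
          exact_mod_cast jetDim_le (hlv i) r
        refine h2.trans ?_
        rw [Finset.sum_comm]
        refine Finset.sum_le_sum fun u _ => ?_
        have h3 := hD (u + 1)
        push_cast at h3
        exact h3
      have h2 : ∀ r : ℕ, ∑ u ∈ Finset.range r, ((δ + ε) * ((u : ℝ) + 1) + D) =
          (δ + ε) * (r * (r + 1)) / 2 + D * r := by
        intro r
        induction r with
        | zero => simp
        | succ r ih =>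
          rw [Finset.sum_range_succ, ih]
          push_cast
          ring
      rw [h2] at h1
      rw [← Finset.mul_sum]
      linarith
    have h3 : Tendsto (fun r : ℕ => ((δ + ε) * (r * ((r : ℝ) + 1)) + 2 * D * r) / (r : ℝ) ^ 2)
        atTop (𝓝 (δ + ε)) := by
      have e1 : Tendsto (fun r : ℕ => (δ + ε) * (((r : ℝ) + 1) / r) + 2 * D * (1 / (r : ℝ)))
          atTop (𝓝 ((δ + ε) * 1 + 2 * D * 0)) :=
        ((tendsto_add_div 1).const_mul _).add (tendsto_one_div_atTop_nhds_zero_nat.const_mul _)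
      rw [mul_one, mul_zero, add_zero] at e1
      refine e1.congr' ?_
      filter_upwards [eventually_ge_atTop 1] with r hr
      have hr' : (r : ℝ) ≠ 0 := by
        have : (0 : ℝ) < r := by exact_mod_cast hr
        exact this.ne'
      field_simp
    have h4 := liminf_le_ofReal
      (u := fun r : ℕ => ∑ i, 2 * (jetDim P (v i) r : ℝ≥0∞) / (r : ℝ≥0∞) ^ 2) ?_ h3
    · exact (sum_liminf_le fun i (r : ℕ) => 2 * (jetDim P (v i) r : ℝ≥0∞) / (r : ℝ≥0∞) ^ 2).trans h4
    · filter_upwards [eventually_ge_atTop 1] with r hr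
      have e1 : (∑ i, 2 * (jetDim P (v i) r : ℝ≥0∞) / (r : ℝ≥0∞) ^ 2) =
          ((∑ i, 2 * jetDim P (v i) r : ℕ) : ℝ≥0∞) / ((r ^ 2 : ℕ) : ℝ≥0∞) := by
        push_cast
        simp only [div_eq_mul_inv, ← Finset.sum_mul]
      rw [e1, cast_div_eq (Nat.one_le_pow _ _ hr)]
      apply ENNReal.ofReal_le_ofReal
      have hr' : (0 : ℝ) < (r : ℝ) ^ 2 := by positivity
      have e2 : ((r ^ 2 : ℕ) : ℝ) = (r : ℝ) ^ 2 := by push_cast; rfl
      rw [e2]
      apply div_le_div_of_nonneg_right _ hr'.le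
      have := hj r
      push_cast
      exact this
  refine le_of_forall_gt_imp_ge_of_dense fun c hc => ?_
  rcases eq_or_ne c ⊤ with rfl | hct
  · exact le_top
  · obtain ⟨ε, hε, hle⟩ : ∃ ε : ℝ, 0 < ε ∧ ENNReal.ofReal (δ + ε) ≤ c := by
      have hc' : δ < c.toReal := by
        rcases le_or_gt 0 δ with h0 | h0
        · rw [← ENNReal.ofReal_lt_iff_lt_toReal h0 hct]
          exact hc
        · exact lt_of_lt_of_le h0 ENNReal.toReal_nonneg
      refine ⟨c.toReal - δ, by linarith, ?_⟩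
      rw [add_sub_cancel, ENNReal.ofReal_toReal hct]
    exact (key ε hε).trans hle

/-- the numerical part of the count -/
theorem numeric {g : ℕ → ℝ} (hg : Monotone g) {ρ c C : ℝ} (hρ : 0 < ρ) (hc : 0 ≤ c)
    (hC : 0 ≤ C) {β : ℕ}
    (h : ∀ m k w : ℕ, 1 ≤ k → ρ * m < w → (w : ℝ) ≤ ρ * m + 1 →
      k * g (w - k * β) ≤ c * k * m + C * (k ^ 2 + k + m)) {ε : ℝ} (hε : 0 < ε) :
    ∃ D : ℝ, ∀ t : ℕ, g t ≤ (c / ρ + ε) * t + D := by
  -- the parameter `η`
  obtain ⟨η, hη0, hη1, hη2⟩ : ∃ η : ℝ, 0 < η ∧ η * β < ρ ∧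
      (c + C * η) / (ρ - η * β) ≤ c / ρ + ε := by
    have hcont : ContinuousAt (fun η : ℝ => (c + C * η) / (ρ - η * β)) 0 := by
      apply ContinuousAt.div
      · fun_prop
      · fun_prop
      · simpa using hρ.ne'
    have h1 : ∀ᶠ η in 𝓝 (0 : ℝ), (c + C * η) / (ρ - η * β) < c / ρ + ε := by
      apply hcont.eventually_lt_const
      simpa using hε
    have h2 : ∀ᶠ η in 𝓝 (0 : ℝ), η * β < ρ := by
      have : ContinuousAt (fun η : ℝ => η * β) 0 := by fun_prop
      apply this.eventually_lt_const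
      simpa using hρ
    obtain ⟨δ, hδ, hb⟩ := Metric.eventually_nhds_iff.1 (h1.and h2)
    have h3 := hb (y := δ / 2) (by
      rw [Real.dist_eq, sub_zero, abs_of_pos (by linarith)]; linarith)
    exact ⟨δ / 2, by linarith, h3.2, h3.1.le⟩
  set σ := ρ - η * β with hσ
  have hσ0 : 0 < σ := by linarith
  have hβ0 : (0 : ℝ) ≤ β := Nat.cast_nonneg β
  refine ⟨(c + C * η) * (β / σ + 2) + C * (2 + 1 / η), fun t => ?_⟩
  -- the degree `m`
  set m : ℕ := ⌈((t : ℝ) + β) / σ⌉₊ + 1 with hm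
  have hm1 : ((t : ℝ) + β) / σ ≤ m := by
    rw [hm]; push_cast
    linarith [Nat.le_ceil (((t : ℝ) + β) / σ)]
  have hm2 : (m : ℝ) ≤ ((t : ℝ) + β) / σ + 2 := by
    rw [hm]; push_cast
    have := Nat.ceil_lt_add_one (a := ((t : ℝ) + β) / σ) (by positivity)
    linarith
  have hm0 : (1 : ℝ) ≤ m := by rw [hm]; push_cast; linarith [Nat.cast_nonneg (α := ℝ) ⌈((t : ℝ) + β) / σ⌉₊]
  set k : ℕ := ⌈η * m⌉₊ with hk
  have hk1 : η * m ≤ k := Nat.le_ceil _
  have hk2 : (k : ℝ) ≤ η * m + 1 := (Nat.ceil_lt_add_one (by positivity)).le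
  have hkpos : 0 < k := by
    rw [hk]; exact Nat.ceil_pos.2 (by positivity)
  have hk0 : (0 : ℝ) < k := by exact_mod_cast hkpos
  set w : ℕ := ⌊ρ * m⌋₊ + 1 with hw
  have hw1 : ρ * m < w := by rw [hw]; push_cast; exact Nat.lt_floor_add_one _
  have hw2 : (w : ℝ) ≤ ρ * m + 1 := by
    rw [hw]; push_cast
    linarith [Nat.floor_le (show (0 : ℝ) ≤ ρ * m by positivity)]
  have hmain := h m k w hkpos hw1 hw2
  have ht : t ≤ w - k * β := by
    have h1 : (t : ℝ) + β ≤ σ * m := by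
      rwa [div_le_iff₀ hσ0, mul_comm] at hm1
    have h2 : ((k * β + t : ℕ) : ℝ) ≤ w := by
      push_cast
      have h3 : (k : ℝ) * β ≤ (η * m + 1) * β := mul_le_mul_of_nonneg_right hk2 hβ0
      have h4 : σ * m = ρ * m - η * m * β := by rw [hσ]; ring
      nlinarith
    have h3 : k * β + t ≤ w := by exact_mod_cast h2
    omega
  have h5 : g t ≤ g (w - k * β) := hg ht
  have h6 : g (w - k * β) ≤ c * m + C * (k + 1 + m / k) := by
    have h7 : k * g (w - k * β) ≤ k * (c * m + C * (k + 1 + m / k)) := by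
      refine hmain.trans (le_of_eq ?_)
      field_simp
    exact le_of_mul_le_mul_left h7 hk0
  have h7 : (m : ℝ) / k ≤ 1 / η := by
    rw [div_le_div_iff₀ hk0 hη0]
    linarith
  have h8 : c * m + C * (k + 1 + m / k) ≤ (c + C * η) * m + C * (2 + 1 / η) := by
    have h9 : C * (k + 1 + m / k) ≤ C * (η * m + 1 + 1 + 1 / η) := by
      apply mul_le_mul_of_nonneg_left _ hC
      linarith
    nlinarith
  have h9 : (c + C * η) * m ≤ (c + C * η) * (((t : ℝ) + β) / σ + 2) :=
    mul_le_mul_of_nonneg_left hm2 (by positivity)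
  have h10 : (c + C * η) * (((t : ℝ) + β) / σ + 2) =
      (c + C * η) / σ * t + (c + C * η) * (β / σ + 2) := by
    field_simp
    ring
  have h11 : (c + C * η) / σ * t ≤ (c / ρ + ε) * t :=
    mul_le_mul_of_nonneg_right hη2 (Nat.cast_nonneg t)
  linarith

end Pool.Agent.Lib.MP_ed661f_ag.T
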