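import Pool.Agent.Lib.MP_ed661f_ag.T.Thick

/-!
Lengths: a lower bound for the number of jets of the thick curves.
-/

set_option autoImplicit false

open Module

namespace Pool.Agent.Lib.MP_ed661f_ag.T

variable {𝕜 S : Type*} [Field 𝕜] [CommRing S] [Algebra 𝕜 S]

/-- multiplication by `a`, with values modulo `J` -/
noncomputable def mulq (𝕜 : Type*) [Field 𝕜] {S : Type*} [CommRing S] [Algebra 𝕜 S]
    (J : Ideal S) (a : S) : S →ₗ[𝕜] S ⧸ J :=
  (Ideal.Quotient.mkₐ 𝕜 J).toLinearMap.comp (LinearMap.mulLeft 𝕜 a)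

theorem mulq_apply (J : Ideal S) (a x : S) : mulq 𝕜 J a x = Ideal.Quotient.mk J (a * x) := rfl

theorem mulq_eq_zero {J : Ideal S} {a x : S} : mulq 𝕜 J a x = 0 ↔ a * x ∈ J := by
  rw [mulq_apply, Ideal.Quotient.eq_zero_iff_mem]

theorem finrank_anti {J J' : Ideal S} (h : J' ≤ J) [Module.Finite 𝕜 (S ⧸ J')] :
    finrank 𝕜 (S ⧸ J) ≤ finrank 𝕜 (S ⧸ J') :=
  LinearMap.finrank_le_finrank_of_surjective
    (f := (Ideal.Quotient.factorₐ 𝕜 h).toLinearMap) (Ideal.Quotient.factor_surjective h)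

theorem finite_of_le {J J' : Ideal S} (h : J' ≤ J) [Module.Finite 𝕜 (S ⧸ J')] :
    Module.Finite 𝕜 (S ⧸ J) :=
  Module.Finite.of_surjective (Ideal.Quotient.factorₐ 𝕜 h).toLinearMap
    (Ideal.Quotient.factor_surjective h)

/-- the dimension of the range of the multiplication by `a` -/
theorem finrank_range_mulq (J : Ideal S) (a : S) [Module.Finite 𝕜 (S ⧸ J)] :
    finrank 𝕜 (LinearMap.range (mulq 𝕜 J a)) + finrank 𝕜 (S ⧸ (J ⊔ Ideal.span {a})) =
      finrank 𝕜 (S ⧸ J) := by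
  let g : (S ⧸ J) →ₗ[𝕜] (S ⧸ (J ⊔ Ideal.span {a})) :=
    (Ideal.Quotient.factorₐ 𝕜 (le_sup_left : J ≤ J ⊔ Ideal.span {a})).toLinearMap
  have hgs : Function.Surjective g :=
    Ideal.Quotient.factor_surjective (le_sup_left : J ≤ J ⊔ Ideal.span {a})
  have hker : LinearMap.ker g = LinearMap.range (mulq 𝕜 J a) := by
    ext x
    obtain ⟨y, rfl⟩ := Ideal.Quotient.mk_surjective x
    have e : g (Ideal.Quotient.mk J y) = Ideal.Quotient.mk (J ⊔ Ideal.span {a}) y := rfl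
    rw [LinearMap.mem_ker, e, Ideal.Quotient.eq_zero_iff_mem, LinearMap.mem_range]
    constructor
    · intro hy
      obtain ⟨c, hc, d, hd, rfl⟩ := Submodule.mem_sup.1 hy
      obtain ⟨t, rfl⟩ := Ideal.mem_span_singleton'.1 hd
      refine ⟨t, ?_⟩
      rw [mulq_apply, map_add, Ideal.Quotient.eq_zero_iff_mem.2 hc, zero_add, mul_comm]
    · rintro ⟨t, ht⟩
      rw [mulq_apply, Ideal.Quotient.eq] at ht
      have e2 : y = a * t - (a * t - y) := by ring
      rw [e2]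
      exact Ideal.sub_mem _ (Ideal.mem_sup_right (Ideal.mul_mem_right _ _
        (Ideal.mem_span_singleton_self a))) (Ideal.mem_sup_left ht)
  have h1 := LinearMap.finrank_range_add_finrank_ker g
  rw [LinearMap.range_eq_top.2 hgs, finrank_top, hker] at h1
  omega

/-- if `a f ∈ J'` implies `f ∈ c` then `S / c` is not larger than the range of the multiplication -/
theorem finrank_le_range (J' : Ideal S) (a : S) {c : Ideal S}
    [Module.Finite 𝕜 (S ⧸ J')] (hc : ∀ f, a * f ∈ J' → f ∈ c) :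
    finrank 𝕜 (S ⧸ c) ≤ finrank 𝕜 (LinearMap.range (mulq 𝕜 J' a)) := by
  have e1 : LinearMap.ker (mulq 𝕜 J' a) ≤ (c.restrictScalars 𝕜 : Submodule 𝕜 S) := by
    intro f hf
    rw [LinearMap.mem_ker, mulq_eq_zero] at hf
    exact hc f hf
  have hfin : Module.Finite 𝕜 (S ⧸ LinearMap.ker (mulq 𝕜 J' a)) :=
    Module.Finite.equiv (mulq 𝕜 J' a).quotKerEquivRange.symm
  have h1 := (mulq 𝕜 J' a).quotKerEquivRange.finrank_eq
  rw [← h1]
  let p : (S ⧸ LinearMap.ker (mulq 𝕜 J' a)) →ₗ[𝕜] (S ⧸ (c.restrictScalars 𝕜 : Submodule 𝕜 S)) :=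
    Submodule.factor e1
  have hp : Function.Surjective p := Submodule.factor_surjective e1
  have h2 := LinearMap.finrank_le_finrank_of_surjective (f := p) hp
  exact h2

/-- the range of the multiplication by an element of `J` -/
theorem finrank_range_add_le {J J' : Ideal S} (hJ : J' ≤ J) (a : S)
    [Module.Finite 𝕜 (S ⧸ J')] (ha : ∀ f, a * f ∈ J) :
    finrank 𝕜 (LinearMap.range (mulq 𝕜 J' a)) + finrank 𝕜 (S ⧸ J) ≤ finrank 𝕜 (S ⧸ J') := by
  let g : (S ⧸ J') →ₗ[𝕜] (S ⧸ J) := (Ideal.Quotient.factorₐ 𝕜 hJ).toLinearMap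
  have hgs : Function.Surjective g := Ideal.Quotient.factor_surjective hJ
  have hker : LinearMap.range (mulq 𝕜 J' a) ≤ LinearMap.ker g := by
    rintro _ ⟨t, rfl⟩
    rw [LinearMap.mem_ker]
    have e : g (mulq 𝕜 J' a t) = Ideal.Quotient.mk J (a * t) := rfl
    rw [e, Ideal.Quotient.eq_zero_iff_mem]
    exact ha t
  have h1 := LinearMap.finrank_range_add_finrank_ker g
  rw [LinearMap.range_eq_top.2 hgs, finrank_top] at h1
  have h2 := Submodule.finrank_mono hker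
  omega

/-- powers of one element -/
theorem finrank_pow_le (Q : Ideal S) (a : S) [Module.Finite 𝕜 (S ⧸ Q)] (j : ℕ) :
    finrank 𝕜 (S ⧸ (Q ⊔ Ideal.span {a ^ j})) ≤ j * finrank 𝕜 (S ⧸ (Q ⊔ Ideal.span {a})) := by
  induction j with
  | zero =>
    have h : Q ⊔ Ideal.span {a ^ 0} = ⊤ := by
      rw [pow_zero, Ideal.span_singleton_one]; exact sup_top_eq _
    rw [h]
    have : Subsingleton (S ⧸ (⊤ : Ideal S)) := Ideal.Quotient.subsingleton_iff.2 rfl
    rw [finrank_zero_of_subsingleton]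
    exact Nat.zero_le _
  | succ j ih =>
    have hfin : Module.Finite 𝕜 (S ⧸ (Q ⊔ Ideal.span {a ^ (j + 1)})) :=
      finite_of_le (le_sup_left : Q ≤ _)
    have hfin' : Module.Finite 𝕜 (S ⧸ (Q ⊔ Ideal.span {a ^ j})) :=
      finite_of_le (le_sup_left : Q ≤ _)
    have h1 := finrank_range_mulq (𝕜 := 𝕜) (Q ⊔ Ideal.span {a ^ (j + 1)}) a
    have h2 : (Q ⊔ Ideal.span {a ^ (j + 1)}) ⊔ Ideal.span {a} = Q ⊔ Ideal.span {a} := by
      rw [sup_assoc]
      congr 1
      apply sup_eq_right.2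
      rw [Ideal.span_singleton_le_span_singleton]
      exact dvd_pow_self a (Nat.succ_ne_zero j)
    rw [h2] at h1
    -- the range is a quotient of `S / (a ^ j, Q)`
    have h3 : finrank 𝕜 (LinearMap.range (mulq 𝕜 (Q ⊔ Ideal.span {a ^ (j + 1)}) a)) ≤
        finrank 𝕜 (S ⧸ (Q ⊔ Ideal.span {a ^ j})) := by
      let J := Q ⊔ Ideal.span {a ^ (j + 1)}
      have e1 : ((Q ⊔ Ideal.span {a ^ j}).restrictScalars 𝕜 : Submodule 𝕜 S) ≤
          LinearMap.ker (mulq 𝕜 J a) := by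
        intro f hf
        rw [LinearMap.mem_ker, mulq_eq_zero]
        obtain ⟨c, hc, d, hd, rfl⟩ := Submodule.mem_sup.1
          (show f ∈ Q ⊔ Ideal.span {a ^ j} from hf)
        obtain ⟨t, rfl⟩ := Ideal.mem_span_singleton'.1 hd
        have e3 : a * (c + t * a ^ j) = a * c + t * a ^ (j + 1) := by ring
        rw [e3]
        exact Ideal.add_mem _ (Ideal.mem_sup_left (Q.mul_mem_left _ hc))
          (Ideal.mem_sup_right (Ideal.mul_mem_left _ _ (Ideal.mem_span_singleton_self _)))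
      let p : (S ⧸ ((Q ⊔ Ideal.span {a ^ j}).restrictScalars 𝕜 : Submodule 𝕜 S)) →ₗ[𝕜]
          (S ⧸ LinearMap.ker (mulq 𝕜 J a)) := Submodule.factor e1
      have hp : Function.Surjective p := Submodule.factor_surjective e1
      have hf2 : Module.Finite 𝕜
          (S ⧸ ((Q ⊔ Ideal.span {a ^ j}).restrictScalars 𝕜 : Submodule 𝕜 S)) := hfin'
      have h4 := LinearMap.finrank_le_finrank_of_surjective (f := p) hp
      rw [(mulq 𝕜 J a).quotKerEquivRange.finrank_eq] at h4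
      exact h4
    rw [add_mul, one_mul]
    omega

/-- one step -/
theorem local_step {I P : Ideal S} {A b : S} (h : Loc I P A b) {K : ℕ → Ideal S}
    (hI : ∀ w, I ≤ K w) [hfin : ∀ w, Module.Finite 𝕜 (S ⧸ K w)] {β : ℕ}
    (hβ : ∀ w f, b * f ∈ K w → f ∈ K (w - β)) {C : ℕ}
    (hC : ∀ t, finrank 𝕜 (S ⧸ (P ⊔ K t ⊔ Ideal.span {A})) ≤ C) (k w : ℕ) :
    finrank 𝕜 (S ⧸ (Jk I A b k ⊔ K w)) + finrank 𝕜 (S ⧸ (P ⊔ K (w - k * β))) ≤
      finrank 𝕜 (S ⧸ (Jk I A b (k + 1) ⊔ K w)) + (k + 1) * C := by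
  set t := w - k * β with ht
  have hpow : ∀ j w f, b ^ j * f ∈ K w → f ∈ K (w - j * β) := by
    intro j
    induction j with
    | zero => intro w f hf; simpa using hf
    | succ j ih =>
      intro w f hf
      have h1 : b * (b ^ j * f) ∈ K w := by
        rw [← mul_assoc, ← pow_succ']; exact hf
      have h2 := ih _ _ (hβ _ _ h1)
      have e : w - β - j * β = w - (j + 1) * β := by
        rw [Nat.sub_sub]; congr 1; ring
      rwa [e] at h2
  have f1 : Module.Finite 𝕜 (S ⧸ (Jk I A b (k + 1) ⊔ K w)) := finite_of_le le_sup_right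
  have f2 : Module.Finite 𝕜 (S ⧸ (P ⊔ K t)) := finite_of_le le_sup_right
  have hle : Jk I A b (k + 1) ⊔ K w ≤ Jk I A b k ⊔ K w := sup_le_sup_right (h.Jk_succ_le k) _
  have h1 := finrank_range_add_le (𝕜 := 𝕜) hle (b ^ k)
    (fun f => Ideal.mem_sup_left (pow_mul_mem_Jk k f))
  -- the colon ideal
  let c : Ideal S := (P ⊔ K t).colon (Ideal.span {A ^ (k + 1)} : Set S)
  have hcm : ∀ f, f ∈ c ↔ A ^ (k + 1) * f ∈ P ⊔ K t := by
    intro f
    rw [Ideal.mem_colon_span_singleton, mul_comm]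
  have h2 : ∀ f, b ^ k * f ∈ Jk I A b (k + 1) ⊔ K w → f ∈ c := by
    intro f hf
    rw [hcm]
    obtain ⟨G, hG, q, hq, hs⟩ := Submodule.mem_sup.1 hf
    obtain ⟨H, hH⟩ := hG
    have h3 : b ^ k * (A ^ (k + 1) * f - b * H) ∈ K w := by
      have e : b ^ k * (A ^ (k + 1) * f - b * H) =
          (A ^ (k + 1) * G - b ^ (k + 1) * H) + A ^ (k + 1) * q := by
        have e2 : b ^ k * (A ^ (k + 1) * f) = A ^ (k + 1) * (G + q) := by
          rw [hs]; ring
        rw [mul_sub, e2]; ring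
      rw [e]
      exact (K w).add_mem (hI w hH) ((K w).mul_mem_left _ hq)
    have h4 := hpow k w _ h3
    have e : A ^ (k + 1) * f = b * H + (A ^ (k + 1) * f - b * H) := by ring
    rw [e]
    exact Ideal.add_mem _ (Ideal.mem_sup_left (P.mul_mem_right _ h.b_mem))
      (Ideal.mem_sup_right h4)
  have h3 := finrank_le_range (𝕜 := 𝕜) (Jk I A b (k + 1) ⊔ K w) (b ^ k) h2
  -- the colength of the colon ideal
  have h4 := finrank_range_mulq (𝕜 := 𝕜) (P ⊔ K t) (A ^ (k + 1))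
  have h5 : finrank 𝕜 (LinearMap.range (mulq 𝕜 (P ⊔ K t) (A ^ (k + 1)))) ≤
      finrank 𝕜 (S ⧸ c) := by
    have e1 : (c.restrictScalars 𝕜 : Submodule 𝕜 S) ≤
        LinearMap.ker (mulq 𝕜 (P ⊔ K t) (A ^ (k + 1))) := by
      intro f hf
      rw [LinearMap.mem_ker, mulq_eq_zero]
      exact (hcm f).1 hf
    have f3 : Module.Finite 𝕜 (S ⧸ (c.restrictScalars 𝕜 : Submodule 𝕜 S)) := by
      have : P ⊔ K t ≤ c := by
        intro f hf
        rw [hcm]
        exact Ideal.mul_mem_left _ _ hf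
      exact finite_of_le (𝕜 := 𝕜) this
    let p : (S ⧸ (c.restrictScalars 𝕜 : Submodule 𝕜 S)) →ₗ[𝕜]
        (S ⧸ LinearMap.ker (mulq 𝕜 (P ⊔ K t) (A ^ (k + 1)))) := Submodule.factor e1
    have hp : Function.Surjective p := Submodule.factor_surjective e1
    have h6 := LinearMap.finrank_le_finrank_of_surjective (f := p) hp
    rw [(mulq 𝕜 (P ⊔ K t) (A ^ (k + 1))).quotKerEquivRange.finrank_eq] at h6
    exact h6
  have h6 := finrank_pow_le (𝕜 := 𝕜) (P ⊔ K t) A (k + 1)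
  have h7 := Nat.mul_le_mul_left (k + 1) (hC t)
  omega

/-- the jets of the thick curves -/
theorem local_sum {I P : Ideal S} {A b : S} (h : Loc I P A b) {K : ℕ → Ideal S}
    (hI : ∀ w, I ≤ K w) [hfin : ∀ w, Module.Finite 𝕜 (S ⧸ K w)] {β : ℕ}
    (hβ : ∀ w f, b * f ∈ K w → f ∈ K (w - β)) {C : ℕ}
    (hC : ∀ t, finrank 𝕜 (S ⧸ (P ⊔ K t ⊔ Ideal.span {A})) ≤ C) (k w : ℕ) :
    ∑ j ∈ Finset.range k, finrank 𝕜 (S ⧸ (P ⊔ K (w - j * β))) ≤
      finrank 𝕜 (S ⧸ (Jk I A b k ⊔ K w)) + k * k * C := by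
  induction k with
  | zero => simp
  | succ k ih =>
    rw [Finset.sum_range_succ]
    have h1 := local_step h hI hβ hC k w
    have e : (k + 1) * (k + 1) * C = k * k * C + (k + 1) * C + k * C := by ring
    have : 0 ≤ k * C := Nat.zero_le _
    omega

end Pool.Agent.Lib.MP_ed661f_ag.T
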