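import Mathlib

/-!
Forms which vanish to high order along a curve: algebra of the ideals `Jk`.
`I` is the ideal of the surface, `P` the ideal of the curve, `b ∈ P` a form whose divisor on the
surface contains the curve exactly once, `A ∉ P` a form with `A P ⊆ (b) + I`.
-/

set_option autoImplicit false

open Module

namespace Pool.Agent.Lib.MP_ed661f_ag.T

section Ring
variable {S : Type*} [CommRing S]

/-- the elements `G` such that `A ^ k G` is a multiple of `b ^ k` modulo `I` -/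
def Jk (I : Ideal S) (A b : S) (k : ℕ) : Ideal S where
  carrier := {G | ∃ H, A ^ k * G - b ^ k * H ∈ I}
  add_mem' := by
    rintro x y ⟨H, hH⟩ ⟨H', hH'⟩
    refine ⟨H + H', ?_⟩
    have := I.add_mem hH hH'
    have e : A ^ k * (x + y) - b ^ k * (H + H') =
        A ^ k * x - b ^ k * H + (A ^ k * y - b ^ k * H') := by ring
    rwa [e]
  zero_mem' := ⟨0, by simp⟩
  smul_mem' := by
    rintro c x ⟨H, hH⟩
    refine ⟨c * H, ?_⟩
    have e : A ^ k * (c • x) - b ^ k * (c * H) = c * (A ^ k * x - b ^ k * H) := by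
      rw [smul_eq_mul]; ring
    rw [e]
    exact I.mul_mem_left c hH

theorem mem_Jk {I : Ideal S} {A b : S} {k : ℕ} {G : S} :
    G ∈ Jk I A b k ↔ ∃ H, A ^ k * G - b ^ k * H ∈ I := Iff.rfl

/-- `b` generates `P` modulo `I` at the generic point of the curve, with the denominator `A` -/
structure Loc (I P : Ideal S) (A b : S) : Prop where
  I_prime : I.IsPrime
  P_prime : P.IsPrime
  le : I ≤ P
  b_mem : b ∈ P
  b_not : b ∉ I
  A_not : A ∉ P
  mul_mem : ∀ x ∈ P, ∃ y, A * x - b * y ∈ I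

variable {I P : Ideal S} {A b : S}

theorem Loc.cancel (h : Loc I P A b) {k : ℕ} {x : S} (hx : b ^ k * x ∈ I) : x ∈ I := by
  rcases h.I_prime.mem_or_mem hx with h1 | h1
  · exact absurd (h.I_prime.mem_of_pow_mem k h1) h.b_not
  · exact h1

theorem Loc.A_not_I (h : Loc I P A b) : A ∉ I := fun h1 => h.A_not (h.le h1)

theorem Loc.mem_of (h : Loc I P A b) {s : S} (hs : s ∉ P) :
    ∀ {k : ℕ} {G : S}, (∃ H, s * G - b ^ k * H ∈ I) → G ∈ Jk I A b k := by
  intro k
  induction k with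
  | zero =>
    intro G _
    exact ⟨G, by simp⟩
  | succ k ih =>
    rintro G ⟨H, hH⟩
    have hG : G ∈ P := by
      have h1 : s * G ∈ P := by
        have h2 : s * G = (s * G - b ^ (k + 1) * H) + b * (b ^ k * H) := by ring
        rw [h2]
        exact P.add_mem (h.le hH) (P.mul_mem_right _ h.b_mem)
      exact (h.P_prime.mem_or_mem h1).resolve_left hs
    obtain ⟨G', hG'⟩ := h.mul_mem G hG
    have h3 : s * G' - b ^ k * (A * H) ∈ I := by
      apply h.cancel (k := 1)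
      have e : b ^ 1 * (s * G' - b ^ k * (A * H)) =
          A * (s * G - b ^ (k + 1) * H) - s * (A * G - b * G') := by ring
      rw [e]
      exact I.sub_mem (I.mul_mem_left _ hH) (I.mul_mem_left _ hG')
    obtain ⟨H', hH'⟩ := ih ⟨_, h3⟩
    refine ⟨H', ?_⟩
    have e : A ^ (k + 1) * G - b ^ (k + 1) * H' =
        A ^ k * (A * G - b * G') + b * (A ^ k * G' - b ^ k * H') := by ring
    rw [e]
    exact I.add_mem (I.mul_mem_left _ hG') (I.mul_mem_left _ hH')

theorem Jk_zero : Jk I A b 0 = ⊤ := by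
  rw [Ideal.eq_top_iff_one]
  exact ⟨1, by simp⟩

theorem Loc.pow_not (h : Loc I P A b) (k : ℕ) : A ^ k ∉ P := fun h1 =>
  h.A_not (h.P_prime.mem_of_pow_mem k h1)

theorem Loc.Jk_succ_le (h : Loc I P A b) (k : ℕ) : Jk I A b (k + 1) ≤ Jk I A b k := by
  rintro G ⟨H, hH⟩
  refine h.mem_of (h.pow_not (k + 1)) ⟨b * H, ?_⟩
  have e : A ^ (k + 1) * G - b ^ k * (b * H) = A ^ (k + 1) * G - b ^ (k + 1) * H := by ring
  rwa [e]

theorem I_le_Jk (k : ℕ) : I ≤ Jk I A b k := by
  intro x hx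
  refine ⟨0, ?_⟩
  rw [mul_zero, sub_zero]
  exact I.mul_mem_left _ hx

theorem pow_mul_mem_Jk (k : ℕ) (f : S) : b ^ k * f ∈ Jk I A b k := by
  refine ⟨A ^ k * f, ?_⟩
  have e : A ^ k * (b ^ k * f) - b ^ k * (A ^ k * f) = 0 := by ring
  rw [e]
  exact I.zero_mem

theorem Loc.succ_of_mem (h : Loc I P A b) {k : ℕ} {G H : S} (h1 : A ^ k * G - b ^ k * H ∈ I)
    (hH : H ∈ P) : G ∈ Jk I A b (k + 1) := by
  obtain ⟨H', hH'⟩ := h.mul_mem H hH
  refine ⟨H', ?_⟩
  have e : A ^ (k + 1) * G - b ^ (k + 1) * H' =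
      A * (A ^ k * G - b ^ k * H) + b ^ k * (A * H - b * H') := by ring
  rw [e]
  exact I.add_mem (I.mul_mem_left _ h1) (I.mul_mem_left _ hH')

theorem Loc.uniq (h : Loc I P A b) {k : ℕ} {G H H' : S} (h1 : A ^ k * G - b ^ k * H ∈ I)
    (h2 : A ^ k * G - b ^ k * H' ∈ I) : H - H' ∈ I := by
  apply h.cancel (k := k)
  have e : b ^ k * (H - H') = (A ^ k * G - b ^ k * H') - (A ^ k * G - b ^ k * H) := by ring
  rw [e]
  exact I.sub_mem h2 h1

end Ring

end Pool.Agent.Lib.MP_ed661f_ag.T
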