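import Pool.Agent.Lib.MP_ed661f_ag.T.Etale
import Pool.Agent.Lib.MP_ed661f_ag.T.Thick
import Pool.Agent.Lib.MP_ed661f_ag.H.Krull
import Pool.Agent.Lib.MP_ed661f_ag.H.Basis

/-!
Projection of the surface `F = 0` in `ℙ³` from the point `(0,0,0,1)`: for every curve on the
surface which is not in the ramification divisor there are forms `A`, `b` with the properties
`Loc`.
-/

set_option autoImplicit false

open MvPolynomial

namespace Pool.Agent.Lib.MP_ed661f_ag.T

open Pool.Agent.Lib.MP_ed661f_ag.H

/-- the forms in three variables -/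
abbrev D3 : Type := MvPolynomial (Fin 3) ℂ

/-- `ℂ[x₀,..,x₃]` as polynomials in `x₃` over `ℂ[x₀,x₁,x₂]` -/
noncomputable def eqv : Poly 3 ≃ₐ[ℂ] Polynomial D3 :=
  (renameEquiv ℂ finSuccEquivLast).trans (optionEquivLeft ℂ (Fin 3))

/-- the inclusion of `ℂ[x₀,x₁,x₂]` -/
noncomputable def inc : D3 →ₐ[ℂ] Poly 3 := rename Fin.castSucc

theorem eqv_X_last : eqv (X (Fin.last 3)) = Polynomial.X := by
  unfold eqv
  rw [AlgEquiv.trans_apply, renameEquiv_apply, rename_X, finSuccEquivLast_last,
    optionEquivLeft_X_none]

theorem eqv_X_castSucc (i : Fin 3) : eqv (X (Fin.castSucc i)) = Polynomial.C (X i) := by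
  unfold eqv
  rw [AlgEquiv.trans_apply, renameEquiv_apply, rename_X, finSuccEquivLast_castSucc,
    optionEquivLeft_X_some]

theorem eqv_C (c : ℂ) : eqv (C c) = Polynomial.C (C c) := by
  unfold eqv
  rw [AlgEquiv.trans_apply, renameEquiv_apply, rename_C, optionEquivLeft_C]

theorem eqv_inc (b : D3) : eqv (inc b) = Polynomial.C b := by
  induction b using MvPolynomial.induction_on with
  | C a => rw [inc, rename_C, eqv_C]
  | add p q hp hq => rw [map_add, map_add, map_add, hp, hq]
  | mul_X p i hp =>
    rw [map_mul, map_mul, map_mul, hp]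
    congr 1
    rw [inc, rename_X, eqv_X_castSucc]

theorem eqv_pderiv (F : Poly 3) :
    eqv (pderiv (Fin.last 3) F) = Polynomial.derivative (eqv F) := by
  induction F using MvPolynomial.induction_on with
  | C a => rw [pderiv_C, map_zero, eqv_C, Polynomial.derivative_C]
  | add p q hp hq => rw [map_add, map_add, map_add, map_add, hp, hq]
  | mul_X p i hp =>
    rw [Derivation.leibniz, smul_eq_mul, smul_eq_mul, map_add, map_mul, map_mul, map_mul, hp,
      Polynomial.derivative_mul]
    rcases Fin.eq_castSucc_or_eq_last i with ⟨j, rfl⟩ | rfl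
    · rw [eqv_X_castSucc, Polynomial.derivative_C, pderiv_X_of_ne (Fin.castSucc_ne_last j),
        map_zero]
      ring
    · rw [eqv_X_last, Polynomial.derivative_X, pderiv_X_self, map_one]
      ring

/-- homogeneous ideals generated by a form -/
theorem homog_span {N : ℕ} {F : Poly N} {d : ℕ} (hF : F.IsHomogeneous d) :
    Homog (Ideal.span {F}) := by
  intro G hG k
  obtain ⟨H, rfl⟩ := Ideal.mem_span_singleton'.1 hG
  rw [hc_mul H F hF]
  split_ifs
  · exact Ideal.mul_mem_left _ _ (Ideal.mem_span_singleton_self F)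
  · exact Ideal.zero_mem _

/-- the degree in `x₃` -/
theorem natDegree_eqv_le (F : Poly 3) : (eqv F).natDegree ≤ F.totalDegree := by
  unfold eqv
  rw [AlgEquiv.trans_apply, renameEquiv_apply, natDegree_optionEquivLeft]
  exact (degreeOf_le_totalDegree _ _).trans (totalDegree_rename_le _ _)

/-- the leading coefficient -/
theorem coeff_eqv {F : Poly 3} {d : ℕ} (hF : F.IsHomogeneous d) :
    (eqv F).coeff d = C (coeff (Finsupp.single (Fin.last 3) d) F) := by
  have hFd : F.totalDegree ≤ d := hF.totalDegree_le
  have h0 : ((eqv F).coeff d).totalDegree = 0 := by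
    rcases hFd.lt_or_eq with h | h
    · rw [Polynomial.coeff_eq_zero_of_natDegree_lt
        (lt_of_le_of_lt (natDegree_eqv_le F) h), totalDegree_zero]
    · have h1 : (rename finSuccEquivLast F : MvPolynomial (Option (Fin 3)) ℂ).totalDegree = d := by
        rw [← h]
        exact totalDegree_renameEquiv finSuccEquivLast F
      have h2 := totalDegree_coeff_optionEquivLeft_add_le (R := ℂ) (S₁ := Fin 3)
        (rename finSuccEquivLast F) d (le_of_eq h1.symm)
      rw [h1] at h2
      unfold eqv
      rw [AlgEquiv.trans_apply, renameEquiv_apply]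
      omega
  rw [totalDegree_eq_zero_iff_eq_C.1 h0]
  congr 1
  unfold eqv
  rw [AlgEquiv.trans_apply, renameEquiv_apply]
  have h3 := optionEquivLeft_coeff_some_coeff_none ℂ (Fin 3) (Finsupp.single none d)
    (rename finSuccEquivLast F)
  rw [Finsupp.single_eq_same, Finsupp.some_single_none] at h3
  rw [h3, ← coeff_rename_mapDomain _ finSuccEquivLast.injective F (Finsupp.single (Fin.last 3) d),
    Finsupp.mapDomain_single, finSuccEquivLast_last]

end Pool.Agent.Lib.MP_ed661f_ag.T
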